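import Pool.Agent.J4.H85.IS.Bundle

/-!
# Semiconjugacies to an expansive map: uncountably many of a family are equal
-/

set_option autoImplicit false
set_option linter.unusedSectionVars false

open Filter Set Topology

universe u v w

namespace Pool.Agent.J4.H98.FH

open Pool.Agent.J4.H85.IS

namespace BASE

variable {X : Type u} [MetricSpace X] [CompactSpace X]

theorem semi_iter {T : X → X} {B : Type v} {f : B → B} {g : X → B} (h : ∀ x, g (T x) = f (g x))
    (k : ℕ) (x : X) : f^[k] (g x) = g (T^[k] x) := by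
  induction k generalizing x with
  | zero => rfl
  | succ k ih => rw [Function.iterate_succ_apply, Function.iterate_succ_apply, ← h, ih]

theorem mem_closure {T : X → X} (hper : Dense {x | ∃ k, 1 ≤ k ∧ T^[k] x = x}) {B : Type v}
    [MetricSpace B] {f : B → B} {g : X → B} (hg : Continuous g) (h : ∀ x, g (T x) = f (g x))
    (x : X) : g x ∈ closure {y | ∃ k, 1 ≤ k ∧ f^[k] y = y} := by
  have h1 := image_closure_subset_closure_image hg ⟨x, hper x, rfl⟩
  refine closure_mono ?_ h1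
  rintro _ ⟨p, ⟨k, hk, hp⟩, rfl⟩
  exact ⟨k, hk, by rw [semi_iter h, hp]⟩

/-- two nearby semiconjugacies are equal -/
theorem eq_of_near (T : X ≃ₜ X) (hper : Dense {x | ∃ k, 1 ≤ k ∧ T^[k] x = x}) {B : Type v}
    [MetricSpace B] {f : B → B} {e₀ : ℝ} (hX : ExpansiveWith f e₀) {g g' : X → B}
    (hg : Continuous g) (hg' : Continuous g') (h : ∀ x, g (T x) = f (g x))
    (h' : ∀ x, g' (T x) = f (g' x)) (hd : ∀ x, dist (g x) (g' x) ≤ e₀) : g = g' := by
  funext x
  set P : Equiv.Perm X := T.toEquiv with hP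
  have hstep : ∀ n : ℤ, (P ^ (n + 1)) x = T ((P ^ n) x) := by
    intro n
    rw [add_comm, zpow_add, zpow_one]
    rfl
  have h1 := hX (fun n => g ((P ^ n) x)) (fun n => g' ((P ^ n) x))
    (fun n => mem_closure hper hg h _) (fun n => mem_closure hper hg' h' _)
    (fun n => by rw [hstep, h]) (fun n => by rw [hstep, h']) (fun n => hd _)
  have h2 := congrFun h1 0
  simpa using h2

end BASE

theorem same_base {X : Type u} [MetricSpace X] [CompactSpace X] (T : X ≃ₜ X)
    (hper : Dense {x | ∃ k, 1 ≤ k ∧ T^[k] x = x}) {B : Type v} [MetricSpace B] [CompactSpace B]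
    {f : B → B} {e₀ : ℝ} (he : 0 < e₀) (hX : ExpansiveWith f e₀) (θ : ℝ → X → B) {ε : ℝ}
    (hε : 0 < ε) (hθ : ∀ s, |s| < ε → Continuous (θ s))
    (hsemi : ∀ s, |s| < ε → ∀ x, θ s (T x) = f (θ s x)) :
    ∃ S : Set ℝ, ¬ S.Countable ∧ (∀ s ∈ S, |s| < ε) ∧ ∀ s ∈ S, ∀ s' ∈ S, θ s = θ s' := by
  obtain ⟨D, hDc, hDd⟩ := TopologicalSpace.exists_countable_dense C(X, B)
  set S : C(X, B) → Set ℝ := fun d => {s | |s| < ε ∧ ∀ x, dist (θ s x) (d x) < e₀ / 2} with hS
  by_contra hno
  push Not at hno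
  have h1 : ∀ d, (S d).Countable := by
    intro d
    by_contra hc
    obtain ⟨s, hs, s', hs', hne⟩ := hno (S d) hc (fun s hs => hs.1)
    apply hne
    refine BASE.eq_of_near T hper hX (hθ s hs.1) (hθ s' hs'.1) (hsemi s hs.1) (hsemi s' hs'.1) ?_
    intro x
    have a1 := hs.2 x
    have a2 := hs'.2 x
    rw [dist_comm] at a2
    have a3 := dist_triangle (θ s x) (d x) (θ s' x)
    linarith
  have h2 : Ioo (-ε) ε ⊆ ⋃ d ∈ D, S d := by
    intro s hs
    have hs' : |s| < ε := abs_lt.2 hs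
    obtain ⟨d, hd, hdist⟩ := hDd.exists_dist_lt (⟨θ s, hθ s hs'⟩ : C(X, B)) (half_pos he)
    refine mem_biUnion hd ⟨hs', fun x => ?_⟩
    exact (ContinuousMap.dist_apply_le_dist (f := (⟨θ s, hθ s hs'⟩ : C(X, B))) x).trans_lt hdist
  have h3 : (Ioo (-ε) ε).Countable := (hDc.biUnion fun d _ => h1 d).mono h2
  have h4 := Cardinal.mk_Ioo_real (by linarith : -ε < ε)
  have h5 := Cardinal.le_aleph0_iff_set_countable.2 h3
  rw [h4] at h5
  exact absurd h5 (not_le.2 Cardinal.aleph0_lt_continuum)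

end Pool.Agent.J4.H98.FH
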