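import Pool.Agent.J4.H98.SP.Final

/-!
# Topological hyperbolicity of the nonwandering set: definitions
-/

set_option autoImplicit false
set_option linter.unusedSectionVars false

open Filter Set Topology

universe u v w

namespace Pool.Agent.J4.H98.FH

open Pool.Agent.J4.H85.IS Pool.Agent.J4.H85.LE Pool.Agent.J4.H98.SP

/-- periodic pseudo-orbits of `T` are traced by periodic orbits with the same period -/
def PerShadow {X : Type u} [MetricSpace X] (T : X → X) : Prop :=
  ∀ τ : ℝ, 0 < τ → ∃ η : ℝ, 0 < η ∧ ∀ (x : ℕ → X) (M : ℕ), 1 ≤ M → (∀ i, x (i + M) = x i) →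
    (∀ i, dist (T (x i)) (x (i + 1)) < η) → ∃ p, T^[M] p = p ∧ ∀ i, dist (T^[i] p) (x i) < τ

/-- periodic points which stay near each other are equal -/
def PerExp {X : Type u} [MetricSpace X] (T : X → X) : Prop :=
  ∃ e : ℝ, 0 < e ∧ ∀ (p q : X) (k : ℕ), 1 ≤ k → T^[k] p = p → T^[k] q = q →
    (∀ i, dist (T^[i] p) (T^[i] q) ≤ e) → p = q

end Pool.Agent.J4.H98.FH
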