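import Pool.Agent.J4.H98.FH.Defs

/-!
# Expansivity from the tracing of periodic pseudo-orbits and the expansivity of the periodic points
-/

set_option autoImplicit false
set_option linter.unusedSectionVars false

open Filter Set Topology

universe u v w

namespace Pool.Agent.J4.H98.FH

namespace EXP

variable {X : Type u} [MetricSpace X]

/-- two periodic pseudo-orbits near each other are very near each other -/
theorem key (T : X → X) (hs : PerShadow T) {e₀ : ℝ} (hp : ∀ (p q : X) (k : ℕ), 1 ≤ k →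
    T^[k] p = p → T^[k] q = q → (∀ i, dist (T^[i] p) (T^[i] q) ≤ e₀) → p = q) {τ : ℝ} (hτ : 0 < τ)
    (hτe : τ ≤ e₀ / 3) : ∃ η : ℝ, 0 < η ∧ ∀ (a b : ℕ → X) (M : ℕ), 1 ≤ M →
      (∀ i, i + 1 < M → dist (T (a i)) (a (i + 1)) < η) → dist (T (a (M - 1))) (a 0) < η →
      (∀ i, i + 1 < M → dist (T (b i)) (b (i + 1)) < η) → dist (T (b (M - 1))) (b 0) < η →
      (∀ i, i < M → dist (a i) (b i) ≤ e₀ / 3) → ∀ i, i < M → dist (a i) (b i) < 2 * τ := by
  obtain ⟨η, hη, h⟩ := hs τ hτ
  refine ⟨η, hη, fun a b M hM ha ha' hb hb' hab i hi => ?_⟩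
  have hM0 : 0 < M := hM
  have aux : ∀ c : ℕ → X, (∀ i, i + 1 < M → dist (T (c i)) (c (i + 1)) < η) →
      dist (T (c (M - 1))) (c 0) < η →
      ∃ p, T^[M] p = p ∧ ∀ i, dist (T^[i] p) (c (i % M)) < τ := by
    intro c hc hc'
    refine h (fun i => c (i % M)) M hM (fun i => by simp) fun i => ?_
    have h1 : i % M < M := Nat.mod_lt _ hM0
    rcases lt_or_ge (i % M + 1) M with h2 | h2
    · have h3 : (i + 1) % M = i % M + 1 := by
        rw [Nat.add_mod, Nat.mod_eq_of_lt (show 1 < M by omega), Nat.mod_eq_of_lt h2]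
      simp only [h3]
      exact hc _ h2
    · have h4 : i % M = M - 1 := by omega
      have h3 : (i + 1) % M = 0 := by
        rw [Nat.add_mod, h4]
        rcases Nat.lt_or_ge 1 M with h5 | h5
        · rw [Nat.mod_eq_of_lt h5, Nat.sub_add_cancel hM, Nat.mod_self]
        · have : M = 1 := by omega
          subst this
          simp
      simp only [h3, h4]
      exact hc'
  obtain ⟨p, hp1, hp2⟩ := aux a ha ha'
  obtain ⟨q, hq1, hq2⟩ := aux b hb hb'
  have hpq : p = q := by
    refine hp p q M hM hp1 hq1 fun j => ?_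
    have h1 := hp2 j
    have h2 := hq2 j
    have h3 := hab (j % M) (Nat.mod_lt _ hM0)
    have h4 := dist_triangle4 (T^[j] p) (a (j % M)) (b (j % M)) (T^[j] q)
    rw [dist_comm] at h2
    linarith
  have h1 := hp2 i
  have h2 := hq2 i
  rw [Nat.mod_eq_of_lt hi] at h1 h2
  rw [← hpq] at h2
  rw [dist_comm] at h1
  have h4 := dist_triangle (a i) (T^[i] p) (b i)
  linarith

end EXP

theorem expansive {X : Type u} [MetricSpace X] [CompactSpace X] (T : X ≃ₜ X)
    (hper : Dense {x | ∃ k, 1 ≤ k ∧ T^[k] x = x}) (hs : PerShadow T) (hp : PerExp T) :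
    ∃ e : ℝ, 0 < e ∧ ∀ x y : ℤ → X, (∀ n, T (x n) = x (n + 1)) → (∀ n, T (y n) = y (n + 1)) →
      (∀ n, dist (x n) (y n) ≤ e) → x = y := by
  obtain ⟨e₀, he₀, hp⟩ := hp
  refine ⟨e₀ / 3, by positivity, fun x y hx hy hxy => ?_⟩
  -- the pairs at distance at least `d` are finitely many
  have hfin : ∀ d : ℝ, 0 < d → {n : ℤ | d ≤ dist (x n) (y n)}.Finite := by
    intro d hd
    by_contra hinf
    have hinf' : {n : ℤ | d ≤ dist (x n) (y n)}.Infinite := hinf
    obtain ⟨η, hη, hk⟩ := EXP.key T hs hp (τ := min (e₀ / 3) (d / 2)) (by positivity)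
      (min_le_left _ _)
    let φ := hinf'.natEmbedding
    obtain ⟨z, -, ψ, hψ, hz⟩ := isCompact_univ.tendsto_subseq
      (x := fun j : ℕ => (x (φ j : ℤ), y (φ j : ℤ))) (fun _ => mem_univ _)
    obtain ⟨N, hN⟩ := Metric.tendsto_atTop.1 hz (η / 2) (by positivity)
    have hne : ((φ (ψ N) : {n : ℤ | d ≤ dist (x n) (y n)}) : ℤ) ≠ (φ (ψ (N + 1)) : ℤ) := by
      intro hh
      have h1 := φ.injective (Subtype.ext hh)
      exact absurd (hψ.injective h1) (by omega)
    have hcl : dist (x (φ (ψ N) : ℤ), y (φ (ψ N) : ℤ))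
        (x (φ (ψ (N + 1)) : ℤ), y (φ (ψ (N + 1)) : ℤ)) < η := by
      have h1 := hN N le_rfl
      have h2 := hN (N + 1) (by omega)
      simp only [Function.comp_apply] at h1 h2
      have h3 := dist_triangle_right (x (φ (ψ N) : ℤ), y (φ (ψ N) : ℤ))
        (x (φ (ψ (N + 1)) : ℤ), y (φ (ψ (N + 1)) : ℤ)) z
      linarith
    -- the case `k < l`
    have main : ∀ k l : ℤ, k < l → d ≤ dist (x k) (y k) → dist (x l) (x k) < η →
        dist (y l) (y k) < η → False := by
      intro k l hkl hdk h1 h2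
      obtain ⟨M, hM⟩ : ∃ M : ℕ, l = k + M := ⟨(l - k).toNat, by omega⟩
      have hM1 : 1 ≤ M := by omega
      have h3 := hk (fun i => x (k + i)) (fun i => y (k + i)) M hM1 (fun i _ => ?_) ?_
        (fun i _ => ?_) ?_ (fun i _ => hxy _) 0 (by omega)
      · simp only [Nat.cast_zero, add_zero] at h3
        have h4 : min (e₀ / 3) (d / 2) ≤ d / 2 := min_le_right _ _
        linarith
      · rw [hx, show k + (i : ℤ) + 1 = k + ((i + 1 : ℕ) : ℤ) by push_cast; ring, dist_self]
        exact hη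
      · simp only [Nat.cast_zero, add_zero]
        rw [hx, show k + ((M - 1 : ℕ) : ℤ) + 1 = l by omega]
        exact h1
      · rw [hy, show k + (i : ℤ) + 1 = k + ((i + 1 : ℕ) : ℤ) by push_cast; ring, dist_self]
        exact hη
      · simp only [Nat.cast_zero, add_zero]
        rw [hy, show k + ((M - 1 : ℕ) : ℤ) + 1 = l by omega]
        exact h2
    have hd1 : d ≤ dist (x (φ (ψ N) : ℤ)) (y (φ (ψ N) : ℤ)) := (φ (ψ N)).2
    have hd2 : d ≤ dist (x (φ (ψ (N + 1)) : ℤ)) (y (φ (ψ (N + 1)) : ℤ)) := (φ (ψ (N + 1))).2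
    rw [Prod.dist_eq, max_lt_iff] at hcl
    rcases lt_or_gt_of_ne hne with hlt | hlt
    · exact main _ _ hlt hd1 (by rw [dist_comm]; exact hcl.1) (by rw [dist_comm]; exact hcl.2)
    · exact main _ _ hlt hd2 hcl.1 hcl.2
  by_contra hne
  obtain ⟨m, hm⟩ : ∃ m, x m ≠ y m := by
    by_contra hcon
    push Not at hcon
    exact hne (funext hcon)
  have hd0 : 0 < dist (x m) (y m) := dist_pos.2 hm
  obtain ⟨η, hη, hk⟩ := EXP.key T hs hp (τ := min (e₀ / 3) (dist (x m) (y m) / 2)) (by positivity)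
    (min_le_left _ _)
  -- the time `K`
  obtain ⟨K, hK1, hKl, hKr⟩ : ∃ K : ℕ, 1 ≤ K ∧ dist (x (m - K)) (y (m - K)) < η / 2 ∧
      dist (x (m + K)) (y (m + K)) < η / 2 := by
    obtain ⟨S, hS⟩ : ∃ S : Set ℤ, S = {n : ℤ | η / 2 ≤ dist (x n) (y n)} := ⟨_, rfl⟩
    have hSf : S.Finite := by rw [hS]; exact hfin _ (by positivity)
    have hb : ∃ K : ℕ, ∀ n ∈ S, (n - m).natAbs < K := by
      refine ⟨(hSf.toFinset.sup fun n => (n - m).natAbs) + 1, fun n hn => ?_⟩
      exact Nat.lt_succ_of_le (Finset.le_sup (f := fun n : ℤ => (n - m).natAbs)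
        (hSf.mem_toFinset.2 hn))
    obtain ⟨K, hK⟩ := hb
    refine ⟨K + 1, by omega, ?_, ?_⟩
    · by_contra hc
      push Not at hc
      have h1 := hK (m - ((K + 1 : ℕ) : ℤ)) (by rw [hS]; exact hc)
      omega
    · by_contra hc
      push Not at hc
      have h1 := hK (m + ((K + 1 : ℕ) : ℤ)) (by rw [hS]; exact hc)
      omega
  obtain ⟨L, hL⟩ : ∃ L : ℕ, L = 2 * K := ⟨_, rfl⟩
  obtain ⟨u, hu⟩ : ∃ u : ℕ → X, u = fun i : ℕ => x (m - (K : ℤ) + (i : ℤ)) := ⟨_, rfl⟩
  obtain ⟨v, hv⟩ : ∃ v : ℕ → X, v = fun i : ℕ => y (m - (K : ℤ) + (i : ℤ)) := ⟨_, rfl⟩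
  have hTu : ∀ i, T (u i) = u (i + 1) := by
    intro i
    rw [hu]
    simp only
    rw [hx]
    congr 1
    push_cast
    ring
  have hTv : ∀ i, T (v i) = v (i + 1) := by
    intro i
    rw [hv]
    simp only
    rw [hy]
    congr 1
    push_cast
    ring
  have hTuL : ∀ i, T^[i] (u 0) = u i := by
    intro i
    induction i with
    | zero => rfl
    | succ i ih => rw [Function.iterate_succ_apply', ih, hTu]
  have h0 : dist (u 0) (v 0) < η / 2 := by
    rw [hu, hv]
    simpa using hKl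
  have h1 : dist (u L) (v L) < η / 2 := by
    rw [hu, hv]
    simp only
    rw [show m - (K : ℤ) + (L : ℤ) = m + K by rw [hL]; push_cast; ring]
    exact hKr
  -- the periodic point
  obtain ⟨P, ⟨hP1, hP2⟩, k, hk1, hPk⟩ : ∃ P : X, (dist P (u 0) < η / 2 ∧
      dist (T^[L] P) (u L) < η / 2) ∧ ∃ k, 1 ≤ k ∧ T^[k] P = P := by
    have ho : IsOpen {P : X | dist P (u 0) < η / 2 ∧ dist (T^[L] P) (u L) < η / 2} := by
      refine IsOpen.inter ?_ ?_
      · exact isOpen_lt (continuous_id.dist continuous_const) continuous_const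
      · exact isOpen_lt ((T.continuous.iterate L).dist continuous_const) continuous_const
    obtain ⟨P, hP, hP'⟩ := hper.inter_open_nonempty _ ho ⟨u 0, by
      refine ⟨by rw [dist_self]; positivity, ?_⟩
      rw [hTuL, dist_self]
      positivity⟩
    exact ⟨P, hP, hP'⟩
  obtain ⟨M, hM⟩ : ∃ M : ℕ, M = k * (L + 1) := ⟨_, rfl⟩
  have hLM : L < M := by
    rw [hM]
    nlinarith
  have hPM : T^[M] P = P := by
    rw [hM, Function.iterate_mul]
    exact Function.iterate_fixed hPk _
  have hL2 : K < L := by omega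
  have hLpos : 0 < L := by omega
  have hjump : ∀ w : ℕ → X, (∀ i, T (w i) = w (i + 1)) → dist (w L) (T^[L] P) < η →
      dist P (w 0) < η →
      (∀ i, i + 1 < M → dist (T ((fun i => if i < L then w i else T^[i] P) i))
        ((fun i => if i < L then w i else T^[i] P) (i + 1)) < η) ∧
      dist (T ((fun i => if i < L then w i else T^[i] P) (M - 1)))
        ((fun i => if i < L then w i else T^[i] P) 0) < η := by
    intro w hw hw1 hw2
    refine ⟨fun i _ => ?_, ?_⟩
    · simp only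
      rcases lt_trichotomy (i + 1) L with h2 | h2 | h2
      · rw [if_pos (by omega), if_pos h2, hw, dist_self]
        exact hη
      · rw [if_pos (by omega), if_neg (by omega), hw, h2]
        exact hw1
      · rw [if_neg (by omega), if_neg (by omega), ← Function.iterate_succ_apply' (⇑T) i P, dist_self]
        exact hη
    · simp only
      rw [if_neg (by omega), if_pos hLpos, ← Function.iterate_succ_apply' (⇑T) (M - 1) P,
        show (M - 1).succ = M by omega, hPM]
      exact hw2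
  obtain ⟨ha1, ha2⟩ := hjump u hTu (by rw [dist_comm]; linarith) (by linarith)
  obtain ⟨hb1, hb2⟩ := hjump v hTv
    (by
      have h3 := dist_triangle (v L) (u L) (T^[L] P)
      rw [dist_comm (v L) (u L), dist_comm (u L) (T^[L] P)] at h3
      linarith)
    (by
      have h3 := dist_triangle P (u 0) (v 0)
      linarith)
  have hfinal := hk _ _ M (by omega) ha1 ha2 hb1 hb2 (fun i _ => by
    split_ifs
    · rw [hu, hv]
      exact hxy _
    · rw [dist_self]
      positivity) K (by omega)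
  rw [if_pos hL2, if_pos hL2, hu, hv] at hfinal
  simp only at hfinal
  rw [show m - (K : ℤ) + (K : ℤ) = m by ring] at hfinal
  have h4 : min (e₀ / 3) (dist (x m) (y m) / 2) ≤ dist (x m) (y m) / 2 := min_le_right _ _
  linarith

end Pool.Agent.J4.H98.FH
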