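import Pool.Agent.J4.H98.FH.Defs

/-!
Project FH, piece FULL (two-sided shadowing from periodic shadowing and dense periodic points).
-/

set_option autoImplicit false
set_option linter.unusedSectionVars false

open Filter Set Topology

universe u v w

namespace Pool.Agent.J4.H98.FH

open Pool.Agent.J4.H85.IS Pool.Agent.J4.H85.LE Pool.Agent.J4.H98.SP

namespace FULL

theorem chain_of {X : Type u} {S : X → X → Prop} {a b : X} (h : Relation.TransGen S a b) :
    ∃ (L : ℕ) (c : ℕ → X), 1 ≤ L ∧ c 0 = a ∧ c L = b ∧ ∀ i, i < L → S (c i) (c (i + 1)) := by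
  induction h with
  | @single b h =>
    refine ⟨1, fun i => if i = 0 then a else b, le_rfl, by simp, by simp, fun i hi => ?_⟩
    have : i = 0 := by omega
    subst this
    simpa using h
  | @tail b c' _ h ih =>
    obtain ⟨L, c, hL, h0, h1, hc⟩ := ih
    refine ⟨L + 1, fun i => if i ≤ L then c i else c', by omega, by simp [h0], by simp,
      fun i hi => ?_⟩
    rcases Nat.lt_or_ge i L with hiL | hiL
    · have e1 : i ≤ L := hiL.le
      have e2 : i + 1 ≤ L := hiL
      simp only [e1, e2, if_true]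
      exact hc i hiL
    · have e1 : i = L := by omega
      subst e1
      simp only [le_refl, if_true, show ¬ i + 1 ≤ i by omega, if_false, h1]
      exact h

theorem periodize {X : Type u} {S : X → X → Prop} {w : ℕ → X} {M : ℕ} (hM : 1 ≤ M)
    (h0 : w M = w 0) (h : ∀ i, i < M → S (w i) (w (i + 1))) :
    ∀ i, S (w (i % M)) (w ((i + 1) % M)) := by
  intro i
  have hr : i % M < M := Nat.mod_lt _ (by omega)
  have h1 : w ((i + 1) % M) = w (i % M + 1) := by
    rcases Nat.lt_or_ge (i % M + 1) M with h2 | h2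
    · congr 1
      rw [Nat.add_mod, Nat.mod_eq_of_lt (show 1 < M by omega), Nat.mod_eq_of_lt h2]
    · have h3 : i % M + 1 = M := by omega
      have h4 : (i + 1) % M = 0 := by
        rcases Nat.lt_or_ge 1 M with h5 | h5
        · rw [Nat.add_mod, Nat.mod_eq_of_lt h5, h3, Nat.mod_self]
        · have : M = 1 := by omega
          subst this
          exact Nat.mod_one _
      rw [h4, h3, h0]
  rw [h1]
  exact h _ hr

/-- a step of a pseudo-orbit can be reversed -/
theorem reverse {X : Type u} [MetricSpace X] [CompactSpace X] (T : X ≃ₜ X)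
    (hper : Dense {x | ∃ k, 1 ≤ k ∧ T^[k] x = x}) {η₁ : ℝ} (h1 : 0 < η₁) :
    ∃ η : ℝ, 0 < η ∧ η ≤ η₁ ∧ ∀ x y : X, dist (T x) y < η →
      Relation.TransGen (fun a b => dist (T a) b < η₁) y x := by
  have huc : UniformContinuous T := CompactSpace.uniformContinuous_of_continuous T.continuous
  obtain ⟨δ', hδ', hT⟩ := Metric.uniformContinuous_iff.1 huc η₁ h1
  obtain ⟨δ, hδ, hT2⟩ := Metric.uniformContinuous_iff.1 huc (δ' / 2) (by positivity)
  refine ⟨min (δ' / 2) η₁, lt_min (by positivity) h1, min_le_right _ _, fun x y hxy => ?_⟩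
  obtain ⟨P, hPx, ⟨k, hk, hP⟩⟩ := Metric.dense_iff.1 hper x (min δ η₁) (lt_min hδ h1)
  rw [Metric.mem_ball] at hPx
  have hPk : ∀ j : ℕ, T^[k * j] P = P := by
    intro j
    rw [Function.iterate_mul]
    exact Function.iterate_fixed hP j
  have ha : dist (T y) (T^[2] P) < η₁ := by
    have e : T^[2] P = T (T P) := rfl
    rw [e]
    apply hT
    have e1 : dist (T P) (T x) < δ' / 2 := hT2 (hPx.trans_le (min_le_left _ _))
    have e2 : dist (T x) y < δ' / 2 := hxy.trans_le (min_le_left _ _)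
    calc dist y (T P) ≤ dist y (T x) + dist (T x) (T P) := dist_triangle _ _ _
      _ < δ' := by rw [dist_comm y (T x), dist_comm (T x) (T P)]; linarith
  have hb : ∀ j : ℕ, Relation.ReflTransGen (fun a b => dist (T a) b < η₁) (T^[2] P)
      (T^[2 + j] P) := by
    intro j
    induction j with
    | zero => exact Relation.ReflTransGen.refl
    | succ j ih =>
      refine ih.tail ?_
      show dist (T (T^[2 + j] P)) (T^[2 + (j + 1)] P) < η₁
      rw [← add_assoc, Function.iterate_succ_apply', dist_self]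
      exact h1
  have hc : dist (T (T^[2 + (k * 3 - 3)] P)) x < η₁ := by
    rw [← Function.iterate_succ_apply' T]
    have e : (2 + (k * 3 - 3)).succ = k * 3 := by
      have : 3 ≤ k * 3 := by omega
      omega
    rw [e, hPk]
    exact hPx.trans_le (min_le_right _ _)
  have hab : Relation.TransGen (fun a b => dist (T a) b < η₁) y (T^[2] P) :=
    Relation.TransGen.single ha
  exact (hab.trans_left (hb (k * 3 - 3))).tail hc

theorem back {X : Type u} {S R : X → X → Prop} (hrev : ∀ x y, S x y → Relation.TransGen R y x)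
    (x : ℤ → X) (hx : ∀ n, S (x n) (x (n + 1))) (a : ℤ) :
    ∀ k : ℕ, Relation.TransGen R (x (a + (k + 1 : ℕ))) (x a) := by
  intro k
  induction k with
  | zero =>
    have := hrev _ _ (hx a)
    simpa using this
  | succ k ih =>
    refine Relation.TransGen.trans ?_ ih
    have := hrev _ _ (hx (a + (k + 1 : ℕ)))
    have e : a + ((k + 1 : ℕ) : ℤ) + 1 = a + ((k + 1 + 1 : ℕ) : ℤ) := by push_cast; ring
    rw [e] at this
    exact this

theorem iter_zpow {X : Type u} [MetricSpace X] (T : X ≃ₜ X) (n : ℕ) (x : X) :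
    T^[n] x = (T ^ (n : ℤ)) x := by
  induction n with
  | zero => simp
  | succ n ih =>
    rw [Function.iterate_succ_apply', ih]
    have : T ^ ((n + 1 : ℕ) : ℤ) = T * T ^ (n : ℤ) := by
      rw [show ((n + 1 : ℕ) : ℤ) = 1 + (n : ℤ) by push_cast; ring, zpow_add, zpow_one]
    rw [this]
    rfl

/-- a finite piece of a pseudo-orbit is traced -/
theorem finite_piece {X : Type u} [MetricSpace X] [CompactSpace X] (T : X ≃ₜ X)
    {τ η₁ η : ℝ} (hη : η ≤ η₁)
    (htr : ∀ (x : ℕ → X) (M : ℕ), 1 ≤ M → (∀ i, x (i + M) = x i) →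
      (∀ i, dist (T (x i)) (x (i + 1)) < η₁) → ∃ p, T^[M] p = p ∧ ∀ i, dist (T^[i] p) (x i) < τ)
    (hrev : ∀ x y : X, dist (T x) y < η →
      Relation.TransGen (fun a b => dist (T a) b < η₁) y x)
    (x : ℤ → X) (hx : ∀ n, dist (T (x n)) (x (n + 1)) < η) (K : ℕ) :
    ∃ q : X, ∀ n : ℤ, |n| ≤ K → dist ((T ^ n) q) (x n) < τ := by
  have hb := back (S := fun a b => dist (T a) b < η) hrev x hx (-(K : ℤ) ) (2 * K)
  obtain ⟨L, c, hL, h0, hLc, hc⟩ := chain_of hb
  have hK : (-(K : ℤ)) + ((2 * K + 1 : ℕ) : ℤ) = (K : ℤ) + 1 := by push_cast; ring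
  rw [hK] at h0
  -- the closed pseudo-orbit
  obtain ⟨w, hw⟩ : ∃ w : ℕ → X, w = fun i => if i ≤ 2 * K + 1 then x ((i : ℤ) - K) else
      c (i - (2 * K + 1)) := ⟨_, rfl⟩
  obtain ⟨M, hM⟩ : ∃ M : ℕ, M = 2 * K + 1 + L := ⟨_, rfl⟩
  have hw1 : ∀ i : ℕ, i ≤ 2 * K + 1 → w i = x ((i : ℤ) - K) := by
    intro i hi
    rw [hw]
    simp only [hi, if_true]
  have hw2 : ∀ i : ℕ, w (2 * K + 1 + i) = c i := by
    intro i
    rcases Nat.eq_zero_or_pos i with hi | hi
    · subst hi
      rw [hw1 _ (by omega), h0]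
      congr 1
      push_cast
      ring
    · rw [hw]
      simp only [show ¬ 2 * K + 1 + i ≤ 2 * K + 1 by omega, if_false]
      congr 1
      omega
  have hwM : w M = w 0 := by
    rw [hM, hw2, hLc, hw1 _ (by omega)]
    congr 1
    push_cast
    ring
  have hstep : ∀ i, i < M → dist (T (w i)) (w (i + 1)) < η₁ := by
    intro i hi
    rcases Nat.lt_or_ge i (2 * K + 1) with h | h
    · rw [hw1 i h.le, hw1 (i + 1) h]
      have := hx ((i : ℤ) - K)
      rw [show ((i : ℤ) - K + 1) = (((i + 1 : ℕ) : ℤ) - K) by push_cast; ring] at this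
      exact this.trans_le hη
    · obtain ⟨j, rfl⟩ := Nat.exists_eq_add_of_le h
      rw [hw2, show 2 * K + 1 + j + 1 = 2 * K + 1 + (j + 1) by ring, hw2]
      exact hc j (by omega)
  have hper := periodize (S := fun a b => dist (T a) b < η₁) (show 1 ≤ M by omega) hwM hstep
  obtain ⟨p, -, hp⟩ := htr (fun i => w (i % M)) M (by omega) (fun i => by simp) hper
  refine ⟨(T ^ (K : ℤ)) p, fun n hn => ?_⟩
  have hn1 := (abs_le.1 hn).1
  have hn2 := (abs_le.1 hn).2
  obtain ⟨i, hi⟩ : ∃ i : ℕ, (i : ℤ) = n + K := ⟨(n + K).toNat, Int.toNat_of_nonneg (by omega)⟩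
  have e1 : (T ^ n) ((T ^ (K : ℤ)) p) = T^[i] p := by
    rw [iter_zpow, hi, zpow_add]
    rfl
  have e2 : w (i % M) = x n := by
    rw [Nat.mod_eq_of_lt (by omega), hw1 i (by omega)]
    congr 1
    omega
  rw [e1, ← e2]
  exact hp i

end FULL

/-- two-sided shadowing -/
theorem full {X : Type u} [MetricSpace X] [CompactSpace X] (T : X ≃ₜ X)
    (hper : Dense {x | ∃ k, 1 ≤ k ∧ T^[k] x = x}) (hs : PerShadow T) :
    ∀ τ : ℝ, 0 < τ → ∃ η : ℝ, 0 < η ∧ ∀ x : ℤ → X, (∀ n, dist (T (x n)) (x (n + 1)) < η) →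
      ∃ y : ℤ → X, (∀ n, T (y n) = y (n + 1)) ∧ ∀ n, dist (y n) (x n) < τ := by
  intro τ hτ
  obtain ⟨η₁, h1, htr⟩ := hs (τ / 2) (by positivity)
  obtain ⟨η, hη, hle, hrev⟩ := FULL.reverse T hper h1
  refine ⟨η, hη, fun x hx => ?_⟩
  choose q hq using fun K : ℕ => FULL.finite_piece T hle htr hrev x hx K
  obtain ⟨a, -, φ, hφ, ha⟩ := isCompact_univ.tendsto_subseq (fun n => mem_univ (q n))
  refine ⟨fun n => (T ^ n) a, fun n => ?_, fun n => ?_⟩
  · have : T ^ (n + 1) = T * T ^ n := by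
      rw [add_comm, zpow_add, zpow_one]
    show T ((T ^ n) a) = (T ^ (n + 1)) a
    rw [this]
    rfl
  · have h2 : Tendsto (fun j => dist ((T ^ n) (q (φ j))) (x n)) atTop
        (𝓝 (dist ((T ^ n) a) (x n))) :=
      (((T ^ n).continuous.tendsto a).comp ha).dist tendsto_const_nhds
    have h3 : ∀ᶠ j in atTop, dist ((T ^ n) (q (φ j))) (x n) ≤ τ / 2 := by
      filter_upwards [hφ.tendsto_atTop.eventually_ge_atTop n.natAbs] with j hj
      refine (hq (φ j) n ?_).le
      rw [Int.abs_eq_natAbs]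
      exact_mod_cast hj
    have h4 := le_of_tendsto h2 h3
    show dist ((T ^ n) a) (x n) < τ
    linarith

end Pool.Agent.J4.H98.FH
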