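import Pool.Agent.J4.H98.FH.Defs

/-!
PROJECT FH, piece GAP: periodic points of the same period near each other on a fibre are equal.
-/

set_option autoImplicit false
set_option linter.unusedSectionVars false

open Filter Set Topology

universe u v w

namespace Pool.Agent.J4.H98.FH

open Pool.Agent.J4.H85.IS Pool.Agent.J4.H85.LE Pool.Agent.J4.H98.SP

namespace GapAux

variable {N : Type v} {B : Type w} {ψ : ℝ → N → N} {F : N → N} {ρ : N → ℝ} {π : N → B} {f : B → B}

/-- the track of a periodic point -/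
theorem track [TopologicalSpace N] [TopologicalSpace B] (C : Circ ψ F ρ π f) {s : ℝ} {k : ℕ} {q : N}
    (hk : 1 ≤ k) (hq : (fun y => ψ s (F y))^[k] q = q) :
    Tr ψ F (fun i => (fun y => ψ s (F y))^[i] q) (fun _ => -s) k |s| where
  one := hk
  perx i := by
    show (fun y => ψ s (F y))^[i + k] q = (fun y => ψ s (F y))^[i] q
    rw [Function.iterate_add_apply, hq]
  pere _ := rfl
  step i := by
    show F ((fun y => ψ s (F y))^[i] q) = ψ (-s) ((fun y => ψ s (F y))^[i + 1] q)
    rw [Function.iterate_succ_apply', ← C.act.add, neg_add_cancel, C.act.zero]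
  small _ := (abs_neg s).le

theorem pos_case [TopologicalSpace N] [TopologicalSpace B] (C : Circ ψ F ρ π f) {δ : ℝ}
    (hnd : NDN ψ F ρ δ) {s : ℝ} (hs : |s| < δ / 2) {k : ℕ} {q : N} {D : ℝ} (hk : 1 ≤ k)
    (hq : (fun y => ψ s (F y))^[k] q = q) (hD : (fun y => ψ s (F y))^[k] (ψ D q) = ψ D q)
    (h0 : 0 < D) (h1 : D < 1) (h2 : D < δ / 2) : False := by
  have T := track C hk hq
  set x : ℕ → N := fun i => (fun y => ψ s (F y))^[i] q with hx
  have HC := fm_ch C T
  have hx0 : x 0 = q := rfl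
  have hxk : x k = x 0 := hq
  have nP := nd_of_ndn C hnd x _ k HC (fm_maps C T) hxk
  -- the level at `0`
  have horb0 : ∀ i, orb (fm ψ ρ x fun _ => -s) i 0 s = 0 := by
    intro i
    induction i with
    | zero => rfl
    | succ i ih =>
      show fm ψ ρ x (fun _ => -s) i (orb (fm ψ ρ x fun _ => -s) i 0 s) + s = 0
      rw [ih, fm_zero]
      ring
  have hl0 : lev (fm ψ ρ x fun _ => -s) k 0 = s := lev_unique HC (horb0 k)
  -- the level at `D`
  have hti := track_iter C (fm_maps C T) s D 0 k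
  simp only [zero_add] at hti
  rw [hx0, hD, hxk, hx0] at hti
  have hint : ∃ m : ℤ, orb (fm ψ ρ x fun _ => -s) k D s - D = m := by
    rw [← C.free (orb (fm ψ ρ x fun _ => -s) k D s - D) (ψ D q), ← C.act.add, sub_add_cancel]
    exact hti.symm
  obtain ⟨m, hm⟩ := hint
  have hlow : 0 < orb (fm ψ ρ x fun _ => -s) k D s := by
    have := orb_mono HC.incr k s h0
    simp only [horb0] at this
    exact this
  have hhigh : orb (fm ψ ρ x fun _ => -s) k D s < 1 := by
    have h3 := orb_mono HC.incr k s h1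
    have h4 := HC.orb_per k 0 s
    simp only [horb0, zero_add] at h4
    simp only [h4] at h3
    exact h3
  have hm0 : m = 0 := by
    have h3 : (m : ℝ) < 1 := by linarith
    have h4 : (-1 : ℝ) < m := by linarith
    have h5 : m < 1 := by exact_mod_cast h3
    have h6 : -1 < m := by exact_mod_cast h4
    omega
  have horbD : orb (fm ψ ρ x fun _ => -s) k D s = D := by
    rw [hm0, Int.cast_zero] at hm
    linarith
  have hlD : lev (fm ψ ρ x fun _ => -s) k D = s := lev_unique HC horbD
  -- Rolle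
  obtain ⟨c, hc, hc0⟩ := exists_hasDerivAt_eq_zero h0 (lev_cont HC).continuousOn
    (by rw [hl0, hlD]) (fun t _ => lev_der HC t)
  refine lev'_ne HC nP (t := c) ?_ hc0
  have h3 := lev_slope HC hc.1.le
  have h4 := lev_slope HC hc.2.le
  rw [hl0] at h3
  rw [hlD] at h4
  obtain ⟨hs1, hs2⟩ := abs_lt.1 hs
  rw [abs_lt]
  constructor
  · linarith [hc.1]
  · linarith [hc.2]

end GapAux

theorem gap {N : Type v} [MetricSpace N] [CompactSpace N]
    {B : Type w} [MetricSpace B] [CompactSpace B] {ψ : ℝ → N → N} {F : N → N} {ρ : N → ℝ}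
    {π : N → B} {f : B → B} (C : Circ ψ F ρ π f) {δ : ℝ} (hδ : 0 < δ) (hnd : NDN ψ F ρ δ) :
    ∃ e : ℝ, 0 < e ∧ ∀ (s : ℝ), |s| < δ / 2 → ∀ (k : ℕ) (q : N) (D : ℝ), 1 ≤ k →
      (fun y => ψ s (F y))^[k] q = q → (fun y => ψ s (F y))^[k] (ψ D q) = ψ D q → |D| < e →
      D = 0 := by
  refine ⟨min 1 (δ / 2), by positivity, fun s hs k q D hk hq hD hDe => ?_⟩
  obtain ⟨h1, h2⟩ := abs_lt.1 (hDe.trans_le (min_le_left _ _))
  obtain ⟨h3, h4⟩ := abs_lt.1 (hDe.trans_le (min_le_right _ _))
  rcases lt_trichotomy D 0 with h | h | h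
  · exfalso
    refine GapAux.pos_case C hnd hs hk hD (D := -D) ?_ (by linarith) (by linarith) (by linarith)
    rw [← C.act.add, neg_add_cancel, C.act.zero]
    exact hq
  · exact h
  · exact (GapAux.pos_case C hnd hs hk hq hD h h2 h4).elim

end Pool.Agent.J4.H98.FH
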