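import Pool.Agent.J4.H98.FH.Defs

/-!
# Expansivity and shadowing on a compact invariant set of a topological space
-/

set_option autoImplicit false
set_option linter.unusedSectionVars false

open Filter Set Topology

universe u v w

namespace Pool.Agent.J4.H98.FH

/-- `G` is expansive on `Λ`: there is a neighbourhood `W` of the diagonal such that two full orbits in
`Λ` whose points at all times are `W`-close are equal. -/
def ExpansiveOn {N : Type v} [TopologicalSpace N] (G : N → N) (Λ : Set N) : Prop :=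
  ∃ W : Set (N × N), IsOpen W ∧ (∀ x, (x, x) ∈ W) ∧ ∀ x y : ℤ → N,
    (∀ n, x n ∈ Λ ∧ G (x n) = x (n + 1)) → (∀ n, y n ∈ Λ ∧ G (y n) = y (n + 1)) →
    (∀ n, (x n, y n) ∈ W) → x = y

/-- `G` has the shadowing property on `Λ`: for every neighbourhood `V` of the diagonal there is a
neighbourhood `W` of the diagonal such that every (bi-infinite) pseudo-orbit in `Λ` with jumps in `W` is
`V`-traced by a full orbit in `Λ`, and every periodic pseudo-orbit in `Λ` with jumps in `W` is `V`-traced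
by the orbit of a point of `Λ` with the same period. -/
def ShadowingOn {N : Type v} [TopologicalSpace N] (G : N → N) (Λ : Set N) : Prop :=
  ∀ V : Set (N × N), IsOpen V → (∀ x, (x, x) ∈ V) →
    ∃ W : Set (N × N), IsOpen W ∧ (∀ x, (x, x) ∈ W) ∧
      (∀ x : ℤ → N, (∀ n, x n ∈ Λ) → (∀ n, (G (x n), x (n + 1)) ∈ W) →
        ∃ y : ℤ → N, (∀ n, y n ∈ Λ ∧ G (y n) = y (n + 1)) ∧ ∀ n, (x n, y n) ∈ V) ∧
      ∀ (x : ℕ → N) (M : ℕ), 1 ≤ M → (∀ i, x (i + M) = x i) → (∀ i, x i ∈ Λ) →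
        (∀ i, (G (x i), x (i + 1)) ∈ W) → ∃ p ∈ Λ, G^[M] p = p ∧ ∀ i, (x i, G^[i] p) ∈ V

variable {X : Type u} [MetricSpace X] [CompactSpace X] {N : Type v} [TopologicalSpace N] [T2Space N]

/-- the neighbourhood of the diagonal of the pairs which are not far in `X` -/
def nb (κ : X → N) (η : ℝ) : Set (N × N) :=
  (Prod.map κ κ '' {q : X × X | η ≤ dist q.1 q.2})ᶜ

theorem nb_open {κ : X → N} (hc : Continuous κ) (η : ℝ) : IsOpen (nb κ η) := by
  have h1 : IsCompact {q : X × X | η ≤ dist q.1 q.2} :=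
    (isClosed_le continuous_const (continuous_fst.dist continuous_snd)).isCompact
  exact (h1.image (hc.prodMap hc)).isClosed.isOpen_compl

theorem nb_diag {κ : X → N} (hi : Function.Injective κ) {η : ℝ} (hη : 0 < η) (x : N) :
    (x, x) ∈ nb κ η := by
  rintro ⟨⟨u, v⟩, h1, h2⟩
  have h3 : κ u = x := congrArg Prod.fst h2
  have h4 : κ v = x := congrArg Prod.snd h2
  have h5 : u = v := hi (h3.trans h4.symm)
  have h6 : η ≤ dist u v := h1
  rw [h5, dist_self] at h6
  linarith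

theorem nb_lt {κ : X → N} {η : ℝ} {u v : X} (h : (κ u, κ v) ∈ nb κ η) : dist u v < η := by
  by_contra hc
  exact h ⟨(u, v), not_lt.1 hc, rfl⟩

/-- inverse image of a neighbourhood of the diagonal -/
theorem pull {κ : X → N} (hc : Continuous κ) {V : Set (N × N)} (hV : IsOpen V)
    (hd : ∀ x, (x, x) ∈ V) : ∃ τ : ℝ, 0 < τ ∧ ∀ u v : X, dist u v < τ → (κ v, κ u) ∈ V := by
  have hK : IsCompact {q : X × X | (κ q.2, κ q.1) ∉ V} := by
    have : IsClosed {q : X × X | (κ q.2, κ q.1) ∉ V} :=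
      (hV.preimage ((hc.comp continuous_snd).prodMk (hc.comp continuous_fst))).isClosed_compl
    exact this.isCompact
  rcases ({q : X × X | (κ q.2, κ q.1) ∉ V}).eq_empty_or_nonempty with h | h
  · refine ⟨1, one_pos, fun u v _ => ?_⟩
    by_contra hcon
    have : (u, v) ∈ {q : X × X | (κ q.2, κ q.1) ∉ V} := hcon
    rw [h] at this
    exact this
  · obtain ⟨⟨u0, v0⟩, h0, hmin⟩ := hK.exists_isMinOn h
      (continuous_fst.dist continuous_snd).continuousOn
    have hpos : 0 < dist u0 v0 := by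
      rw [dist_pos]
      rintro rfl
      exact h0 (hd _)
    refine ⟨_, hpos, fun u v huv => ?_⟩
    by_contra hcon
    have h2 : dist u0 v0 ≤ dist u v := hmin (show (u, v) ∈ {q : X × X | (κ q.2, κ q.1) ∉ V} from hcon)
    linarith

theorem expansiveOn_of (T : X ≃ₜ X) {κ : X → N} (hc : Continuous κ) (hi : Function.Injective κ)
    {G : N → N} (hk : ∀ x, κ (T x) = G (κ x)) {Λ : Set N} (hΛ : range κ = Λ)
    (hexp : ∃ e : ℝ, 0 < e ∧ ∀ x y : ℤ → X, (∀ n, T (x n) = x (n + 1)) → (∀ n, T (y n) = y (n + 1)) →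
      (∀ n, dist (x n) (y n) ≤ e) → x = y) : ExpansiveOn G Λ := by
  obtain ⟨e, he, h⟩ := hexp
  refine ⟨nb κ e, nb_open hc e, nb_diag hi he, fun x y hx hy hxy => ?_⟩
  have hx1 : ∀ n, ∃ u, κ u = x n := fun n => by
    have := (hx n).1
    rwa [← hΛ] at this
  have hy1 : ∀ n, ∃ u, κ u = y n := fun n => by
    have := (hy n).1
    rwa [← hΛ] at this
  choose u hu using hx1
  choose v hv using hy1
  have huv : u = v := by
    refine h u v (fun n => hi ?_) (fun n => hi ?_) fun n => (nb_lt (κ := κ) ?_).le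
    · rw [hk, hu, hu, (hx n).2]
    · rw [hk, hv, hv, (hy n).2]
    · rw [hu, hv]
      exact hxy n
  funext n
  rw [← hu, ← hv, huv]

theorem iter_k {T : X ≃ₜ X} {κ : X → N} {G : N → N} (h : ∀ x, κ (T x) = G (κ x)) (i : ℕ) (x : X) :
    κ (T^[i] x) = G^[i] (κ x) := by
  induction i with
  | zero => rfl
  | succ i ih => rw [Function.iterate_succ_apply', Function.iterate_succ_apply', h, ih]

theorem shadowingOn_of (T : X ≃ₜ X) {κ : X → N} (hc : Continuous κ) (hi : Function.Injective κ)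
    {G : N → N} (hk : ∀ x, κ (T x) = G (κ x)) {Λ : Set N} (hΛ : range κ = Λ) (hP : PerShadow T)
    (hF : ∀ τ : ℝ, 0 < τ → ∃ η : ℝ, 0 < η ∧ ∀ x : ℤ → X, (∀ n, dist (T (x n)) (x (n + 1)) < η) →
      ∃ y : ℤ → X, (∀ n, T (y n) = y (n + 1)) ∧ ∀ n, dist (y n) (x n) < τ) : ShadowingOn G Λ := by
  intro V hV hd
  obtain ⟨τ, hτ, hpull⟩ := pull hc hV hd
  obtain ⟨η1, hη1, h1⟩ := hP τ hτ
  obtain ⟨η2, hη2, h2⟩ := hF τ hτ
  refine ⟨nb κ (min η1 η2), nb_open hc _, nb_diag hi (lt_min hη1 hη2), ?_, ?_⟩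
  · intro x hx hxW
    have hx1 : ∀ n, ∃ u, κ u = x n := fun n => by
      have := hx n
      rwa [← hΛ] at this
    choose u hu using hx1
    obtain ⟨y, hy1, hy2⟩ := h2 u fun n => by
      refine (nb_lt (κ := κ) ?_).trans_le (min_le_right η1 η2)
      rw [hk, hu, hu]
      exact hxW n
    refine ⟨fun n => κ (y n), fun n => ⟨?_, ?_⟩, fun n => ?_⟩
    · rw [← hΛ]
      exact mem_range_self _
    · rw [← hk, hy1]
    · rw [← hu]
      exact hpull _ _ (hy2 n)
  · intro x M hM hxM hx hxW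
    have hx1 : ∀ n, ∃ u, κ u = x n := fun n => by
      have := hx n
      rwa [← hΛ] at this
    choose u hu using hx1
    obtain ⟨p, hp1, hp2⟩ := h1 u M hM (fun i => hi (by rw [hu, hu, hxM])) fun n => by
      refine (nb_lt (κ := κ) ?_).trans_le (min_le_left η1 η2)
      rw [hk, hu, hu]
      exact hxW n
    refine ⟨κ p, ?_, ?_, fun i => ?_⟩
    · rw [← hΛ]
      exact mem_range_self _
    · rw [← iter_k hk, hp1]
    · rw [← iter_k hk, ← hu]
      exact hpull _ _ (hp2 i)

end Pool.Agent.J4.H98.FH
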