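import Pool.Agent.J4.H98.FH.Trace
import Pool.Agent.J4.H98.FH.Topo

/-!
# `Ω`-stable diffeomorphisms with circle fibres are topologically hyperbolic on the nonwandering set
-/

set_option autoImplicit false
set_option linter.unusedSectionVars false

open scoped Manifold ContDiff Topology
open Filter Set

universe u v

namespace Pool.Agent.J4.H98.FH

open Pool.Agent.J4.H85.IS Pool.Agent.J4.H85.LE Pool.Agent.J4.H98.SP
open Pool.Agent.TH80.OMS Pool.Agent.TH80.CLX
open Pool.Agent.H718R2.G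
open Pool.Agent.N102.UF (flow_fam)
open Pool.Agent.TH290.CL (IsFlow)
open Pool.Agent.J4.H98.Fib

variable {n : ℕ} {N : Type u} [TopologicalSpace N] [T2Space N] [CompactSpace N]
  [ChartedSpace (V n) N] [IsManifold (𝓡 n) ∞ N]

theorem per_mem_omega {G : N → N} {k : ℕ} (hk : 1 ≤ k) {q : N} (hq : G^[k] q = q) : q ∈ Omega G :=
  fun W _ hW => ⟨k, hk, q, hW, by rw [hq]; exact hW⟩

/-- the restriction of a homeomorphism to its nonwandering set -/
theorem exists_restrict {F G : N → N} (hF : Continuous F) (hG : Continuous G)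
    (h1 : ∀ y, F (G y) = y) (h2 : ∀ y, G (F y) = y) :
    ∃ T : Omega F ≃ₜ Omega F, ∀ x, ((T x : Omega F) : N) = F x := by
  have hFm : ∀ x ∈ Omega F, F x ∈ Omega F := fun x hx => omega_maps hF hx
  have hGm : ∀ x ∈ Omega F, G x ∈ Omega F := by
    intro x hx W hW hxW
    obtain ⟨k, hk, y, hy, hy2⟩ := hx (G ⁻¹' W) (hW.preimage hG) hxW
    refine ⟨k, hk, G y, hy, ?_⟩
    have e : ∀ (i : ℕ) (z : N), F^[i] (G z) = G (F^[i] z) := by
      intro i
      induction i with
      | zero => intro z; rfl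
      | succ i ih =>
        intro z
        rw [Function.iterate_succ_apply, Function.iterate_succ_apply, h1, ← ih, h2]
    rw [e]
    exact hy2
  exact ⟨{ toFun := fun x => ⟨F x, hFm x x.2⟩
           invFun := fun x => ⟨G x, hGm x x.2⟩
           left_inv := fun x => Subtype.ext (h2 x)
           right_inv := fun x => Subtype.ext (h1 x)
           continuous_toFun := (hF.comp continuous_subtype_val).subtype_mk _
           continuous_invFun := (hG.comp continuous_subtype_val).subtype_mk _ }, fun x => rfl⟩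

theorem main {B : Type v} [MetricSpace B] [CompactSpace B] {r : ℕ∞} (hr : 1 ≤ r)
    {F : DiffM n N r} (hF : OmegaStable n N r F) {ψ : ℝ → N → N} (hψ : IsFlow n N ψ)
    {ρ : N → ℝ} {π : N → B} {f : B → B} (C : Circ ψ (F : N → N) ρ π f)
    (hX : ExpansiveOnPer f) (hS : PeriodicShadowing f) :
    ∃ U : Set (DiffM n N r), IsOpen[strongTop n N r] U ∧ F ∈ U ∧
      ∀ G ∈ U, ExpansiveOn (G : N → N) (Omega (G : N → N)) ∧
        ShadowingOn (G : N → N) (Omega (G : N → N)) := by
  have hcs : ∀ {G : N → N}, Circ ψ G ρ π f → ∃ κ : ℝ, 0 < κ ∧ ∀ s : ℝ, |s| < κ →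
      CentreShadowing (fun y => ψ s (G y)) ψ := fun hG => ⟨1, one_pos, fun s _ => circ_cs hψ hG hS s⟩
  obtain ⟨δ, hδ, hh⟩ := family_hyp hr hF hψ
  have hnd := ndn_of hψ C hh
  have hO := dense_cs r hr F hF hψ (circ_orbit C) (hcs C)
  obtain ⟨U, hU, hFU, hconj⟩ := hF
  refine ⟨U, hU, hFU, ?_⟩
  obtain ⟨κ, hκ, hfamily⟩ : ∃ κ : ℝ, 0 < κ ∧ ∀ s : ℝ, |s| < κ → ∃ G : DiffM n N r, G ∈ U ∧
      (G : N → N) = fun y => ψ s (F y) := by
    rcases isEmpty_or_nonempty N with hN | ⟨⟨z₀⟩⟩
    · refine ⟨1, one_pos, fun s _ => ⟨F, hFU, ?_⟩⟩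
      funext y
      exact (hN.false y).elim
    · obtain ⟨H, hfam, hH, hH0⟩ := flow_fam hψ r F
      obtain ⟨κ, hκ, hmem⟩ := fam_mem r hr H hfam z₀ U hU (by rw [hH0]; exact hFU)
      refine ⟨κ, hκ, fun s hs => ⟨H s, hmem s (by rwa [Real.norm_eq_abs]), ?_⟩⟩
      funext y
      exact hH s y
  have : SecondCountableTopology N := ChartedSpace.secondCountable_of_sigmaCompact (V n) N
  let _ : MetricSpace N := TopologicalSpace.metrizableSpaceMetric N
  have hcomp : CompactSpace (Omega (F : N → N)) :=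
    isCompact_iff_compactSpace.1 (Trans.closed_omega (G := (F : N → N))).isCompact
  obtain ⟨T, hT⟩ := exists_restrict F.continuous F.symm.continuous (fun y => F.apply_symm_apply y)
    (fun y => F.symm_apply_apply y)
  have hTit : ∀ (i : ℕ) (x : Omega (F : N → N)), ((T^[i] x : Omega (F : N → N)) : N) = F^[i] x := by
    intro i x
    induction i with
    | zero => rfl
    | succ i ih => rw [Function.iterate_succ_apply', Function.iterate_succ_apply', hT, ih]
  have hper : Dense {x : Omega (F : N → N) | ∃ k, 1 ≤ k ∧ T^[k] x = x} := by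
    rw [Metric.dense_iff]
    intro x r hr
    have hx : (x : N) ∈ closure (Per (F : N → N)) := by
      rw [← hO]
      exact x.2
    obtain ⟨p, ⟨k, hk, hp⟩, hd⟩ := Metric.mem_closure_iff.1 hx r hr
    refine ⟨⟨p, per_mem_omega hk hp⟩, ?_, k, hk, Subtype.ext ?_⟩
    · rw [Metric.mem_ball, Subtype.dist_eq, dist_comm]
      exact hd
    · rw [hTit]
      exact hp
  have hcopy : ∀ G ∈ U, ∃ g : Omega (F : N → N) → N, Continuous g ∧ Function.Injective g ∧
      (∀ x, g (T x) = G (g x)) ∧ range g = Omega (G : N → N) := by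
    intro G hG
    obtain ⟨h, hh⟩ := hconj G hG
    refine ⟨fun x => ((h x : Omega (G : N → N)) : N), continuous_subtype_val.comp h.continuous,
      fun x y hxy => h.injective (Subtype.ext hxy), fun x => ?_, ?_⟩
    · exact (hh x (T x) (hT x).symm).symm
    · ext y
      constructor
      · rintro ⟨x, rfl⟩
        exact (h x).2
      · intro hy
        exact ⟨h.symm ⟨y, hy⟩, by
          show ((h (h.symm ⟨y, hy⟩) : Omega (G : N → N)) : N) = y
          rw [h.apply_symm_apply]⟩
  have hfam : ∀ s : ℝ, ∃ g : Omega (F : N → N) → N, |s| < κ → Continuous g ∧ Function.Injective g ∧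
      (∀ x, g (T x) = ψ s (F (g x))) ∧ range g = Omega (fun y => ψ s (F y)) := by
    intro s
    by_cases hs : |s| < κ
    · obtain ⟨G, hG, hGe⟩ := hfamily s hs
      obtain ⟨g, g1, g2, g3, g4⟩ := hcopy G hG
      refine ⟨g, fun _ => ⟨g1, g2, fun x => ?_, ?_⟩⟩
      · rw [g3, hGe]
      · rw [g4, hGe]
    · exact ⟨fun x => x, fun h => absurd h hs⟩
  choose g hg using hfam
  obtain ⟨e₀, he₀, hXe⟩ := hX
  have hPS : PerShadow T := per_shadow T hper C he₀ hXe hS hκ g (fun s hs => (hg s hs).1)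
    (fun s hs => (hg s hs).2.1) (fun s hs => (hg s hs).2.2.1) (fun s hs k q hk hq => by
      have h1 : q ∈ Omega (fun y => ψ s (F y)) := per_mem_omega hk hq
      rw [← (hg s hs).2.2.2] at h1
      exact h1)
  obtain ⟨e1, he1, hgap⟩ := gap C hδ hnd
  have h0 : |(0 : ℝ)| < κ := by rw [abs_zero]; exact hκ
  have hPE : PerExp T := per_exp T C he₀ hXe (s := 0) (hg 0 h0).1 (hg 0 h0).2.1 (hg 0 h0).2.2.1 he1
    (hgap 0 (by rw [abs_zero]; linarith))
  have hexp := expansive T hper hPS hPE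
  have hfull := full T hper hPS
  intro G hG
  obtain ⟨g', g1, g2, g3, g4⟩ := hcopy G hG
  exact ⟨expansiveOn_of T g1 g2 g3 g4 hexp, shadowingOn_of T g1 g2 g3 g4 hPS hfull⟩

end Pool.Agent.J4.H98.FH
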