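import Mathlib

/-!
# Project FH, piece ONE (helper43): a periodic orbit of a periodic sequence of increasing maps
-/

set_option autoImplicit false

open Filter Set Topology

namespace Pool.Agent.J4.H98.FH

namespace ONE

/-- the orbit -/
def orb (φ : ℕ → ℝ → ℝ) (x : ℝ) : ℕ → ℝ
  | 0 => x
  | i + 1 => φ i (orb φ x i)

theorem orb_cont {φ : ℕ → ℝ → ℝ} (hc : ∀ i, Continuous (φ i)) (i : ℕ) :
    Continuous fun x => orb φ x i := by
  induction i with
  | zero => exact continuous_id
  | succ i ih => exact (hc i).comp ih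

end ONE

open ONE in
/-- ONE -/
theorem one_dim {φ : ℕ → ℝ → ℝ} (hm : ∀ i, StrictMono (φ i)) (hc : ∀ i, Continuous (φ i)) {M : ℕ}
    (hM : 1 ≤ M) (hφ : ∀ i, φ (i + M) = φ i) {b : ℕ → ℝ} (hb : ∀ i, b (i + M) = b i)
    (h0 : ∀ i, 0 < φ i 0) (h1 : ∀ i, φ i (b i) < b (i + 1)) (hs : (∀ i, 0 < b i) ∨ ∀ i, b i < 0) :
    ∃ α : ℕ → ℝ, (∀ i, α (i + 1) = φ i (α i)) ∧ (∀ i, α (i + M) = α i) ∧ ∀ i, |α i| ≤ |b i| := by
  have hpos : ∀ α : ℕ → ℝ, (∀ i, α (i + 1) = φ i (α i)) → ∀ i, 0 ≤ α i → ∀ k, 1 ≤ k →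
      0 < α (i + k) := by
    intro α hα i hi k hk
    induction k with
    | zero => omega
    | succ k ih =>
      have h2 : 0 ≤ α (i + k) := by
        rcases Nat.eq_zero_or_pos k with h3 | h3
        · rw [h3]
          exact hi
        · exact (ih h3).le
      rw [← add_assoc, hα]
      exact (h0 _).trans_le ((hm _).monotone h2)
  have hup : ∀ α : ℕ → ℝ, (∀ i, α (i + 1) = φ i (α i)) → ∀ i, α i ≤ b i → ∀ k,
      α (i + k) ≤ b (i + k) := by
    intro α hα i hi k
    induction k with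
    | zero => exact hi
    | succ k ih =>
      rw [← add_assoc, hα]
      exact ((hm _).monotone ih).trans (h1 _).le
  have hup' : ∀ α : ℕ → ℝ, (∀ i, α (i + 1) = φ i (α i)) → ∀ i, α i ≤ b i → ∀ k, 1 ≤ k →
      α (i + k) < b (i + k) := by
    intro α hα i hi k hk
    obtain ⟨j, rfl⟩ : ∃ j, k = j + 1 := ⟨k - 1, by omega⟩
    rw [← add_assoc, hα]
    exact ((hm _).monotone (hup α hα i hi j)).trans_lt (h1 _)
  have hbk : ∀ k, b (M * k) = b 0 := by
    intro k
    induction k with
    | zero => rw [mul_zero]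
    | succ k ih => rw [mul_add, mul_one, hb, ih]
  have hper : ∀ α : ℕ → ℝ, (∀ i, α (i + 1) = φ i (α i)) → α M = α 0 → ∀ i, α (i + M) = α i := by
    intro α hα h i
    induction i with
    | zero => rw [zero_add, h]
    | succ i ih =>
      rw [show i + 1 + M = (i + M) + 1 by omega, hα, hα, hφ, ih]
  have hpk : ∀ α : ℕ → ℝ, (∀ i, α (i + M) = α i) → ∀ k, α (M * k) = α 0 := by
    intro α hα k
    induction k with
    | zero => rw [mul_zero]
    | succ k ih => rw [mul_add, mul_one, hα, ih]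
  have horb : ∀ x i, orb φ x (i + 1) = φ i (orb φ x i) := fun _ _ => rfl
  have horb0 : ∀ x, orb φ x 0 = x := fun _ => rfl
  have hF : Continuous fun x => orb φ x M - x := (orb_cont hc M).sub continuous_id
  have e0 : 0 < orb φ 0 M := by
    have := hpos (orb φ 0) (horb 0) 0 le_rfl M hM
    rwa [zero_add] at this
  have e1 : orb φ (b 0) M < b 0 := by
    have := hup' (orb φ (b 0)) (horb (b 0)) 0 le_rfl M hM
    rw [hb 0] at this
    rwa [zero_add] at this
  rcases hs with hs | hs
  · have h2 := intermediate_value_Icc' (hs 0).le hF.continuousOn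
    have h3 : (0 : ℝ) ∈ Icc (orb φ (b 0) M - b 0) (orb φ 0 M - 0) := ⟨by linarith, by linarith⟩
    obtain ⟨x, ⟨hx0, hx1⟩, hx2⟩ := h2 h3
    have hx3 : orb φ x M = x := by
      have : orb φ x M - x = 0 := hx2
      linarith
    refine ⟨orb φ x, horb x, hper _ (horb x) hx3, fun i => ?_⟩
    have h4 : 0 ≤ orb φ x i := by
      rcases Nat.eq_zero_or_pos i with h5 | h5
      · rw [h5]
        exact hx0
      · have := hpos _ (horb x) 0 hx0 i h5
        rw [zero_add] at this
        exact this.le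
    have h5 : orb φ x i ≤ b i := by
      have := hup _ (horb x) 0 hx1 i
      rwa [zero_add] at this
    rw [abs_of_nonneg h4, abs_of_pos (hs i)]
    exact h5
  · have h2 := intermediate_value_Icc (hs 0).le hF.continuousOn
    have h3 : (0 : ℝ) ∈ Icc (orb φ (b 0) M - b 0) (orb φ 0 M - 0) := ⟨by linarith, by linarith⟩
    obtain ⟨x, ⟨hx0, hx1⟩, hx2⟩ := h2 h3
    have hx3 : orb φ x M = x := by
      have : orb φ x M - x = 0 := hx2
      linarith
    have hp := hper _ (horb x) hx3
    refine ⟨orb φ x, horb x, hp, fun i => ?_⟩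
    have hi : i + (M * (i + 1) - i) = M * (i + 1) := by
      have : i + 1 ≤ M * (i + 1) := Nat.le_mul_of_pos_left _ hM
      omega
    have hi1 : 1 ≤ M * (i + 1) - i := by
      have : i + 1 ≤ M * (i + 1) := Nat.le_mul_of_pos_left _ hM
      omega
    have h4 : orb φ x i < 0 := by
      by_contra hcon
      push Not at hcon
      have h5 := hpos _ (horb x) i hcon _ hi1
      rw [hi, hpk _ hp] at h5
      exact absurd h5 (not_lt.2 hx1)
    have h5 : b i ≤ orb φ x i := by
      by_contra hcon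
      push Not at hcon
      have h6 := hup' _ (horb x) i hcon.le _ hi1
      rw [hi, hpk _ hp, hbk] at h6
      exact absurd h6 (not_lt.2 hx0)
    rw [abs_of_neg h4, abs_of_neg (hs i)]
    linarith

end Pool.Agent.J4.H98.FH
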