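import Mathlib

set_option autoImplicit false

open Filter Set Topology

namespace Pool.Agent.J4.H98.FH

namespace ONEaux

/-- the orbit -/
noncomputable def it (φ : ℕ → ℝ → ℝ) (t : ℝ) : ℕ → ℝ
  | 0 => t
  | n + 1 => φ n (it φ t n)

theorem it_cont {φ : ℕ → ℝ → ℝ} (hc : ∀ i, Continuous (φ i)) (n : ℕ) :
    Continuous fun t => it φ t n := by
  induction n with
  | zero => exact continuous_id
  | succ n ih => exact (hc n).comp ih

theorem per {φ : ℕ → ℝ → ℝ} {M : ℕ} (hφ : ∀ i, φ (i + M) = φ i) {t : ℝ} (ht : it φ t M = t)
    (i : ℕ) : it φ t (i + M) = it φ t i := by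
  induction i with
  | zero => rw [zero_add]; exact ht
  | succ i ih =>
    have e : i + 1 + M = (i + M) + 1 := by omega
    rw [e]
    show φ (i + M) (it φ t (i + M)) = φ i (it φ t i)
    rw [hφ, ih]

theorem per_mul {α : ℕ → ℝ} {M : ℕ} (h : ∀ i, α (i + M) = α i) (k : ℕ) : α (k * M) = α 0 := by
  induction k with
  | zero => rw [zero_mul]
  | succ k ih => rw [Nat.succ_mul, h, ih]

end ONEaux

open ONEaux in
theorem one_dim {φ : ℕ → ℝ → ℝ} (hm : ∀ i, StrictMono (φ i)) (hc : ∀ i, Continuous (φ i)) {M : ℕ}
    (hM : 1 ≤ M) (hφ : ∀ i, φ (i + M) = φ i) {b : ℕ → ℝ} (hb : ∀ i, b (i + M) = b i)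
    (h0 : ∀ i, 0 < φ i 0) (h1 : ∀ i, φ i (b i) < b (i + 1)) (hs : (∀ i, 0 < b i) ∨ ∀ i, b i < 0) :
    ∃ α : ℕ → ℝ, (∀ i, α (i + 1) = φ i (α i)) ∧ (∀ i, α (i + M) = α i) ∧ ∀ i, |α i| ≤ |b i| := by
  have hbM : b M = b 0 := by
    have := hb 0
    rwa [zero_add] at this
  rcases hs with hs | hs
  · have hmap : ∀ t ∈ Icc 0 (b 0), ∀ n, it φ t n ∈ Icc 0 (b n) := by
      intro t ht n
      induction n with
      | zero => exact ht
      | succ n ih =>
        constructor
        · exact (h0 n).le.trans ((hm n).monotone ih.1)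
        · exact ((hm n).monotone ih.2).trans (h1 n).le
    obtain ⟨t, ht, hfix⟩ := exists_mem_Icc_isFixedPt_of_mapsTo (f := fun t => it φ t M)
      (it_cont hc M).continuousOn (hs 0).le (fun t ht => by
        have := hmap t ht M
        rwa [hbM] at this)
    refine ⟨fun i => it φ t i, fun i => rfl, fun i => per hφ hfix i, fun i => ?_⟩
    have h2 := hmap t ht i
    rw [abs_of_nonneg h2.1, abs_of_pos (hs i)]
    exact h2.2
  · have hz : ∀ n, 0 ≤ it φ 0 n := by
      intro n
      induction n with
      | zero => exact le_rfl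
      | succ n ih => exact (h0 n).le.trans ((hm n).monotone ih)
    have hbn : ∀ n, it φ (b 0) n ≤ b n := by
      intro n
      induction n with
      | zero => exact le_rfl
      | succ n ih => exact ((hm n).monotone ih).trans (h1 n).le
    have hg : ContinuousOn (fun t => it φ t M - t) (Icc (b 0) 0) :=
      ((it_cont hc M).sub continuous_id).continuousOn
    have hmem : (0 : ℝ) ∈ Icc (it φ (b 0) M - b 0) (it φ 0 M - 0) := by
      constructor
      · have := hbn M
        rw [hbM] at this
        linarith
      · have := hz M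
        linarith
    obtain ⟨t, ht, htz⟩ := intermediate_value_Icc (hs 0).le hg hmem
    have hfix : it φ t M = t := by
      have : it φ t M - t = 0 := htz
      linarith
    have hper := fun i => per hφ hfix i
    refine ⟨fun i => it φ t i, fun i => rfl, hper, fun i => ?_⟩
    have hle : it φ t i ≤ 0 := by
      by_contra hcon
      rw [not_le] at hcon
      have h2 : ∀ n, 0 < it φ t (i + n) := by
        intro n
        induction n with
        | zero => exact hcon
        | succ n ih => exact (h0 _).trans ((hm _) ih)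
      have h3 := h2 (i * M - i)
      have e : i + (i * M - i) = i * M := by
        have : i ≤ i * M := Nat.le_mul_of_pos_right i hM
        omega
      rw [e, per_mul (α := fun i => it φ t i) hper i] at h3
      exact absurd h3 (not_lt.2 ht.2)
    have hge : b i ≤ it φ t i := by
      by_contra hcon
      rw [not_le] at hcon
      have h2 : ∀ n, it φ t (i + n) < b (i + n) := by
        intro n
        induction n with
        | zero => exact hcon
        | succ n ih => exact ((hm _) ih).trans (h1 _)
      have h3 := h2 (i * M - i)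
      have e : i + (i * M - i) = i * M := by
        have : i ≤ i * M := Nat.le_mul_of_pos_right i hM
        omega
      rw [e, per_mul (α := fun i => it φ t i) hper i, per_mul hb i] at h3
      exact absurd h3 (not_lt.2 ht.1)
    rw [abs_of_nonpos hle, abs_of_neg (hs i)]
    linarith

end Pool.Agent.J4.H98.FH
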