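import Pool.Agent.J4.H98.FH.Defs

/-!
# Two sections over the same orbits, for two parameters

The difference of the two sections is a continuous angle which keeps away from zero and keeps its sign
along the orbits.
-/

set_option autoImplicit false
set_option linter.unusedSectionVars false

open Filter Set Topology

universe u v w

namespace Pool.Agent.J4.H98.FH

open Pool.Agent.J4.H85.IS Pool.Agent.J4.H85.LE Pool.Agent.J4.H98.SP

namespace Pair

variable {N : Type v} [MetricSpace N] [CompactSpace N]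
    {B : Type w} [MetricSpace B] [CompactSpace B] {ψ : ℝ → N → N} {F : N → N} {ρ : N → ℝ}
    {π : N → B} {f : B → B}

theorem uniq (C : Circ ψ F ρ π f) {a b : ℝ} {y : N} (h : ψ a y = ψ b y) (hab : |a - b| < 1) :
    a = b := by
  have h1 : ψ (a - b) (ψ b y) = ψ b y := by
    rw [← C.act.add, sub_add_cancel]
    exact h
  obtain ⟨m, hm⟩ := (C.free _ _).1 h1
  have hm0 : m = 0 := by
    rw [hm] at hab
    have h2 : |m| < 1 := by exact_mod_cast hab
    exact Int.abs_lt_one_iff.1 h2
  rw [hm0] at hm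
  push_cast at hm
  linarith

theorem theta_le (C : Circ ψ F ρ π f) {R : ℝ} (hR : ∀ y, ρ y ≤ R) (y : N) (t : ℝ) :
    |theta ψ ρ y t| ≤ R * |t| := by
  have h1 := intervalIntegral.norm_integral_le_of_norm_le_const (a := (0 : ℝ)) (b := t)
      (f := fun u => ρ (ψ u y)) (C := R) fun u _ => by
        rw [Real.norm_eq_abs, abs_of_pos (C.pos _)]
        exact hR _
  rw [Real.norm_eq_abs, sub_zero] at h1
  exact h1

theorem theta_mono (C : Circ ψ F ρ π f) (y : N) : StrictMono (theta ψ ρ y) :=
  strictMono_of_deriv_pos fun t => by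
    rw [C.theta_deriv]
    exact C.pos _

end Pair

theorem pair {X : Type u} [MetricSpace X] [CompactSpace X] (T : X ≃ₜ X)
    (hper : Dense {x | ∃ k, 1 ≤ k ∧ T^[k] x = x}) {N : Type v} [MetricSpace N] [CompactSpace N]
    {B : Type w} [MetricSpace B] [CompactSpace B] {ψ : ℝ → N → N} {F : N → N} {ρ : N → ℝ}
    {π : N → B} {f : B → B} (C : Circ ψ F ρ π f) {R : ℝ} (hR1 : 1 ≤ R) (hR : ∀ y, ρ y ≤ R)
    {s s' : ℝ} (hss : s < s') (hsm : s' - s ≤ 1 / 8) {g g' : X → N} (hg : Continuous g)
    (hg' : Continuous g') (h1 : ∀ x, g (T x) = ψ s (F (g x))) (h2 : ∀ x, g' (T x) = ψ s' (F (g' x)))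
    {E : X → ℝ} (hE : ∀ x, ψ (E x) (g x) = g' x) (hEs : ∀ x, |E x| ≤ 1 / (8 * R)) :
    Continuous E ∧ (∀ x, E (T x) = theta ψ ρ (g x) (E x) + (s' - s)) ∧
      ∃ m : ℝ, 0 < m ∧ (∀ x, m ≤ |E x|) ∧ ∀ x, (0 < E x ↔ 0 < E (T x)) := by
  have hR0 : 0 < R := lt_of_lt_of_le one_pos hR1
  have hsmall : ∀ x, |E x| ≤ 1 / 8 := fun x => by
    refine (hEs x).trans ?_
    apply one_div_le_one_div_of_le (by norm_num)
    linarith
  -- continuity
  have hcont : Continuous E := by
    rw [continuous_iff_seqContinuous]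
    intro x x₀ hx
    refine tendsto_of_subseq_tendsto fun ns hns => ?_
    obtain ⟨e, he, φ, hφ, hlim⟩ := (isCompact_Icc (a := -(1 / 8 : ℝ)) (b := 1 / 8)).tendsto_subseq
      (x := fun n => E (x (ns n))) fun n => abs_le.1 (hsmall _)
    refine ⟨φ, ?_⟩
    have hx1 : Tendsto (fun n => x (ns (φ n))) atTop (𝓝 x₀) :=
      hx.comp (hns.comp hφ.tendsto_atTop)
    have h3 : Tendsto (fun n => ψ (E (x (ns (φ n)))) (g (x (ns (φ n))))) atTop (𝓝 (ψ e (g x₀))) := by
      have h4 : Tendsto (fun n => (E (x (ns (φ n))), g (x (ns (φ n))))) atTop (𝓝 (e, g x₀)) :=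
        Tendsto.prodMk_nhds hlim ((hg.tendsto _).comp hx1)
      exact (C.cont.tendsto _).comp h4
    have h5 : Tendsto (fun n => ψ (E (x (ns (φ n)))) (g (x (ns (φ n))))) atTop (𝓝 (g' x₀)) := by
      simp only [hE]
      exact (hg'.tendsto _).comp hx1
    have h6 : ψ e (g x₀) = ψ (E x₀) (g x₀) := by
      rw [hE]
      exact tendsto_nhds_unique h3 h5
    have h7 : e = E x₀ := by
      refine Pair.uniq C h6 ?_
      have h8 := abs_le.1 (hsmall x₀)
      have h9 : e ∈ Icc (-(1 / 8 : ℝ)) (1 / 8) := he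
      rw [abs_lt]
      constructor <;> linarith [h9.1, h9.2, h8.1, h8.2]
    rw [← h7]
    exact hlim
  -- the relation
  have hrel : ∀ x, E (T x) = theta ψ ρ (g x) (E x) + (s' - s) := by
    intro x
    have h3 : ψ (E (T x)) (g (T x)) = ψ (theta ψ ρ (g x) (E x) + (s' - s)) (g (T x)) := by
      rw [hE, h2, ← hE x, C.maps, h1, ← C.act.add, ← C.act.add]
      congr 1
      unfold theta
      ring
    refine Pair.uniq C h3 ?_
    have h4 := abs_le.1 (hsmall (T x))
    have h5 : |theta ψ ρ (g x) (E x)| ≤ 1 / 8 := by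
      refine (Pair.theta_le C hR _ _).trans ?_
      calc R * |E x| ≤ R * (1 / (8 * R)) := mul_le_mul_of_nonneg_left (hEs x) hR0.le
        _ = 1 / 8 := by field_simp
    have h6 := abs_le.1 h5
    rw [abs_lt]
    constructor <;> linarith [h4.1, h4.2, h6.1, h6.2]
  refine ⟨hcont, hrel, (s' - s) / R, div_pos (sub_pos.2 hss) hR0, ?_⟩
  set h : ℝ := s' - s with hh
  have hpos : 0 < h := sub_pos.2 hss
  have hle : h / R ≤ h := div_le_self hpos.le hR1
  have hmp : 0 < h / R := div_pos hpos hR0
  -- nonnegative points go to points at least h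
  have hup : ∀ x, 0 ≤ E x → h ≤ E (T x) := by
    intro x hx
    rw [hrel]
    have h3 : theta ψ ρ (g x) 0 ≤ theta ψ ρ (g x) (E x) := (Pair.theta_mono C (g x)).monotone hx
    rw [Circ.theta_zero] at h3
    linarith
  have hup2 : ∀ x, 0 ≤ E x → ∀ i : ℕ, h ≤ E (T^[i + 1] x) := by
    intro x hx i
    induction i with
    | zero => exact hup x hx
    | succ i ih =>
      rw [Function.iterate_succ_apply']
      exact hup _ (hpos.le.trans ih)
  -- periodic points
  have hP : ∀ x, (∃ k, 1 ≤ k ∧ T^[k] x = x) → (h ≤ E x ∧ h ≤ E (T x)) ∨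
      (E x ≤ -(h / R) ∧ E (T x) ≤ -(h / R)) := by
    rintro x ⟨k, hk, hx⟩
    by_cases h0 : 0 ≤ E x
    · left
      refine ⟨?_, hup x h0⟩
      have h3 := hup2 x h0 (k - 1)
      rwa [Nat.sub_add_cancel hk, hx] at h3
    · right
      push Not at h0
      -- all points of the orbit are negative
      have hneg : ∀ i : ℕ, E (T^[i] x) < 0 := by
        intro i
        by_contra hcon
        push Not at hcon
        obtain ⟨j, hj⟩ : ∃ j : ℕ, j + 1 + i = k * (i + 1) := by
          refine ⟨k * (i + 1) - 1 - i, ?_⟩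
          have : 1 * (i + 1) ≤ k * (i + 1) := Nat.mul_le_mul_right _ hk
          omega
        have h3 := hup2 _ hcon j
        rw [← Function.iterate_add_apply, hj, Function.iterate_mul,
          Function.iterate_fixed hx] at h3
        linarith
      have hq : ∀ z, E (T z) < 0 → E z ≤ -(h / R) := by
        intro z hz
        rw [hrel] at hz
        have h4 : theta ψ ρ (g z) (E z) < -h := by linarith
        have h5 : E z < 0 := by
          by_contra hcon
          push Not at hcon
          have h6 : theta ψ ρ (g z) 0 ≤ theta ψ ρ (g z) (E z) :=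
            (Pair.theta_mono C (g z)).monotone hcon
          rw [Circ.theta_zero] at h6
          linarith
        have h6 := Pair.theta_le C hR (g z) (E z)
        rw [abs_of_neg h5, abs_of_neg (by linarith)] at h6
        have h7 : h ≤ -E z * R := by nlinarith
        have h8 : h / R ≤ -E z := (div_le_iff₀ hR0).2 h7
        linarith
      refine ⟨hq x (hneg 1), hq (T x) ?_⟩
      have h3 := hneg 2
      exact h3
  -- density
  have hcT : Continuous fun x => E (T x) := hcont.comp T.continuous
  have hA : ∀ x, h / R ≤ |E x| := by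
    intro x
    have hcl : IsClosed {x | h / R ≤ |E x|} := isClosed_le continuous_const hcont.abs
    have hsub : {x | ∃ k, 1 ≤ k ∧ T^[k] x = x} ⊆ {x | h / R ≤ |E x|} := by
      intro z hz
      rcases hP z hz with h3 | h3
      · exact (hle.trans h3.1).trans (le_abs_self _)
      · show h / R ≤ |E z|
        have h4 := neg_le_abs (E z)
        linarith [h3.1]
    exact hcl.closure_subset_iff.2 hsub (hper x)
  have hB : ∀ x, (h / R) * (h / R) ≤ E x * E (T x) := by
    intro x
    have hcl : IsClosed {x | (h / R) * (h / R) ≤ E x * E (T x)} :=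
      isClosed_le continuous_const (hcont.mul hcT)
    have hsub : {x | ∃ k, 1 ≤ k ∧ T^[k] x = x} ⊆ {x | (h / R) * (h / R) ≤ E x * E (T x)} := by
      intro z hz
      show (h / R) * (h / R) ≤ E z * E (T z)
      rcases hP z hz with h3 | h3
      · exact mul_le_mul (hle.trans h3.1) (hle.trans h3.2) hmp.le (hmp.le.trans (hle.trans h3.1))
      · have h4 : h / R ≤ -E z := by linarith [h3.1]
        have h5 : h / R ≤ -E (T z) := by linarith [h3.2]
        have h6 := mul_le_mul h4 h5 hmp.le (hmp.le.trans h4)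
        linarith [neg_mul_neg (E z) (E (T z))]
    exact hcl.closure_subset_iff.2 hsub (hper x)
  refine ⟨hA, fun x => ?_⟩
  have h3 : 0 < E x * E (T x) := lt_of_lt_of_le (mul_pos hmp hmp) (hB x)
  constructor
  · intro h4
    exact (pos_iff_pos_of_mul_pos h3).1 h4
  · intro h4
    exact (pos_iff_pos_of_mul_pos h3).2 h4

end Pool.Agent.J4.H98.FH
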