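import Pool.Agent.J4.H85.IS.Bundle

/-!
# PAIR (independent copy by helper68)
-/

set_option autoImplicit false
set_option linter.unusedSectionVars false

open Filter Set Topology

universe u v w

namespace Pool.Agent.J4.H98.FH.PAIRb

open Pool.Agent.J4.H85.IS Pool.Agent.J4.H85.LE

section th

variable {N : Type v} [MetricSpace N] [CompactSpace N]
    {B : Type w} [MetricSpace B] [CompactSpace B] {ψ : ℝ → N → N} {F : N → N} {ρ : N → ℝ}
    {π : N → B} {f : B → B}

theorem theta_abs (C : Circ ψ F ρ π f) {R : ℝ} (hR : ∀ y, ρ y ≤ R) (y : N) (t : ℝ) :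
    |theta ψ ρ y t| ≤ R * |t| := by
  have h := intervalIntegral.norm_integral_le_of_norm_le_const (a := (0 : ℝ)) (b := t)
    (f := fun u => ρ (ψ u y)) (C := R) fun u _ => by
      rw [Real.norm_eq_abs, abs_of_pos (C.pos _)]
      exact hR _
  rw [Real.norm_eq_abs, sub_zero] at h
  exact h

theorem theta_nonneg (C : Circ ψ F ρ π f) (y : N) {t : ℝ} (ht : 0 ≤ t) :
    0 ≤ theta ψ ρ y t :=
  intervalIntegral.integral_nonneg ht fun _ _ => (C.pos _).le

end th

theorem pair {X : Type u} [MetricSpace X] [CompactSpace X] (T : X ≃ₜ X)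
    (hper : Dense {x | ∃ k, 1 ≤ k ∧ T^[k] x = x}) {N : Type v} [MetricSpace N] [CompactSpace N]
    {B : Type w} [MetricSpace B] [CompactSpace B] {ψ : ℝ → N → N} {F : N → N} {ρ : N → ℝ}
    {π : N → B} {f : B → B} (C : Circ ψ F ρ π f) {R : ℝ} (hR1 : 1 ≤ R) (hR : ∀ y, ρ y ≤ R)
    {s s' : ℝ} (hss : s < s') (hsm : s' - s ≤ 1 / 8) {g g' : X → N} (hg : Continuous g)
    (hg' : Continuous g') (h1 : ∀ x, g (T x) = ψ s (F (g x))) (h2 : ∀ x, g' (T x) = ψ s' (F (g' x)))
    {E : X → ℝ} (hE : ∀ x, ψ (E x) (g x) = g' x) (hEs : ∀ x, |E x| ≤ 1 / (8 * R)) :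
    Continuous E ∧ (∀ x, E (T x) = theta ψ ρ (g x) (E x) + (s' - s)) ∧
      ∃ m : ℝ, 0 < m ∧ (∀ x, m ≤ |E x|) ∧ ∀ x, (0 < E x ↔ 0 < E (T x)) := by
  have hR0 : 0 < R := by linarith
  have hE8 : ∀ x, |E x| ≤ 1 / 8 := fun x => (hEs x).trans (by
    rw [div_le_div_iff₀ (by positivity) (by norm_num)]
    linarith)
  have hth : ∀ x, |theta ψ ρ (g x) (E x)| ≤ 1 / 8 := fun x => by
    refine (theta_abs C hR (g x) (E x)).trans ?_
    calc R * |E x| ≤ R * (1 / (8 * R)) := mul_le_mul_of_nonneg_left (hEs x) hR0.le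
      _ = 1 / 8 := by field_simp
  -- the equation
  have heq : ∀ x, E (T x) = theta ψ ρ (g x) (E x) + (s' - s) := by
    intro x
    have e1 : ψ (E (T x) + s) (F (g x)) = ψ (s' + theta ψ ρ (g x) (E x)) (F (g x)) := by
      rw [C.act.add, ← h1, hE, h2, ← hE x, C.maps, ← C.act.add]
      rfl
    rw [C.act.eq_iff, mem_stab, C.free] at e1
    obtain ⟨m, hm⟩ := e1
    have a1 := abs_le.1 (hE8 (T x))
    have a2 := abs_le.1 (hth x)
    have b1 : (-1 : ℝ) < m := by
      rw [← hm]
      linarith [a1.1, a2.2]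
    have b2 : (m : ℝ) < 1 := by
      rw [← hm]
      linarith [a1.2, a2.1]
    have b3 : -1 < m := by exact_mod_cast b1
    have b4 : m < 1 := by exact_mod_cast b2
    have b5 : m = 0 := by omega
    rw [b5] at hm
    push_cast at hm
    linarith
  -- continuity
  have hcont : Continuous E := by
    rw [continuous_iff_continuousAt]
    intro x
    refine tendsto_of_subseq_tendsto fun ns hns => ?_
    obtain ⟨e, he, φ, hφ, hlim⟩ := (isCompact_Icc (a := -(1 / 8 : ℝ)) (b := 1 / 8)).tendsto_subseq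
      (x := fun n => E (ns n)) fun n => abs_le.1 (hE8 _)
    refine ⟨φ, ?_⟩
    have h3 : Tendsto (fun n => ns (φ n)) atTop (𝓝 x) := hns.comp hφ.tendsto_atTop
    have h4 : Tendsto (fun n => ψ (E (ns (φ n))) (g (ns (φ n)))) atTop (𝓝 (ψ e (g x))) := by
      have h5 : Tendsto (fun n => (E (ns (φ n)), g (ns (φ n)))) atTop (𝓝 (e, g x)) :=
        hlim.prodMk_nhds ((hg.tendsto x).comp h3)
      exact (C.cont.tendsto _).comp h5
    have h5 : Tendsto (fun n => ψ (E (ns (φ n))) (g (ns (φ n)))) atTop (𝓝 (g' x)) :=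
      ((hg'.tendsto x).comp h3).congr fun n => (hE _).symm
    have h6 : ψ e (g x) = ψ (E x) (g x) := (tendsto_nhds_unique h4 h5).trans (hE x).symm
    rw [C.act.eq_iff, mem_stab, C.free] at h6
    obtain ⟨m, hm⟩ := h6
    have a1 := abs_le.1 (hE8 x)
    have a2 : e ∈ Icc (-(1 / 8 : ℝ)) (1 / 8) := he
    have b1 : (-1 : ℝ) < m := by
      rw [← hm]
      linarith [a1.1, a1.2, a2.1, a2.2]
    have b2 : (m : ℝ) < 1 := by
      rw [← hm]
      linarith [a1.1, a1.2, a2.1, a2.2]
    have b3 : -1 < m := by exact_mod_cast b1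
    have b4 : m < 1 := by exact_mod_cast b2
    have b5 : m = 0 := by omega
    rw [b5] at hm
    push_cast at hm
    have h7 : e = E x := by linarith
    rw [← h7]
    exact hlim
  -- one step
  have step : ∀ x, 0 ≤ E x → s' - s ≤ E (T x) := by
    intro x hx
    rw [heq]
    linarith [theta_nonneg C (g x) hx]
  have steps : ∀ (i : ℕ) (x : X), 0 ≤ E x → s' - s ≤ E (T^[i + 1] x) := by
    intro i
    induction i with
    | zero => exact fun x hx => step x hx
    | succ i ih =>
      intro x hx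
      rw [Function.iterate_succ_apply']
      exact step _ (by linarith [ih x hx])
  -- periodic points
  have hp1 : ∀ p, (∃ k, 1 ≤ k ∧ T^[k] p = p) → 0 ≤ E (T p) → s' - s ≤ E p := by
    rintro p ⟨k, hk, hp⟩ h0
    have h3 := steps (2 * k - 2) (T p) h0
    have h4 : T^[2 * k - 2 + 1] (T p) = p := by
      rw [← Function.iterate_succ_apply]
      have e : (2 * k - 2 + 1).succ = k + k := by omega
      rw [e, Function.iterate_add_apply, hp, hp]
    rwa [h4] at h3
  have hD : 0 < s' - s := by linarith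
  have hDR : (s' - s) / R ≤ s' - s := by
    rw [div_le_iff₀ hR0]
    nlinarith
  have hp2 : ∀ p, (∃ k, 1 ≤ k ∧ T^[k] p = p) → (s' - s) / R ≤ |E p| := by
    intro p hp
    rcases le_or_gt 0 (E (T p)) with h0 | h0
    · exact hDR.trans ((hp1 p hp h0).trans (le_abs_self _))
    · rw [div_le_iff₀ hR0, mul_comm]
      refine le_trans ?_ (theta_abs C hR (g p) (E p))
      have h3 := heq p
      have h4 : theta ψ ρ (g p) (E p) < -(s' - s) := by linarith
      rw [abs_of_neg (by linarith)]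
      linarith
  have hall : ∀ x, (s' - s) / R ≤ |E x| := by
    have hcl : IsClosed {x | (s' - s) / R ≤ |E x|} := isClosed_le continuous_const hcont.abs
    intro x
    have h3 : closure {x | ∃ k, 1 ≤ k ∧ T^[k] x = x} ⊆ {x | (s' - s) / R ≤ |E x|} :=
      closure_minimal (fun p hp => hp2 p hp) hcl
    exact h3 (hper x)
  have hm : 0 < (s' - s) / R := div_pos hD hR0
  refine ⟨hcont, heq, (s' - s) / R, hm, hall, fun x => ⟨fun h => ?_, fun h => ?_⟩⟩
  · linarith [step x h.le]
  · by_contra hc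
    have h3 : E x < 0 := by
      rcases lt_or_eq_of_le (not_lt.1 hc) with h4 | h4
      · exact h4
      · have := hall x
        rw [h4, abs_zero] at this
        linarith
    have hop : IsOpen {x | E x < 0 ∧ 0 < E (T x)} :=
      (isOpen_lt hcont continuous_const).inter
        (isOpen_lt continuous_const (hcont.comp T.continuous))
    obtain ⟨p, ⟨h4, h5⟩, h6⟩ := hper.inter_open_nonempty _ hop ⟨x, h3, h⟩
    linarith [hp1 p h6 h5.le]

end Pool.Agent.J4.H98.FH.PAIRb
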