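import Pool.Agent.J4.H98.FH.Defs

set_option autoImplicit false
set_option linter.unusedSectionVars false

/-! # Periodic points which stay near each other are equal -/

open Filter Set Topology

universe u v w

namespace Pool.Agent.J4.H98.FH

open Pool.Agent.J4.H85.IS Pool.Agent.J4.H85.LE Pool.Agent.J4.H98.SP

theorem per_exp {X : Type u} [MetricSpace X] [CompactSpace X] (T : X ≃ₜ X) {N : Type v}
    [MetricSpace N] [CompactSpace N] {B : Type w} [MetricSpace B] [CompactSpace B] {ψ : ℝ → N → N}
    {F : N → N} {ρ : N → ℝ} {π : N → B} {f : B → B} (C : Circ ψ F ρ π f) {e₀ : ℝ} (he : 0 < e₀)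
    (hX : ExpansiveWith f e₀) {s : ℝ} {g : X → N} (hg : Continuous g) (hinj : Function.Injective g)
    (h1 : ∀ x, g (T x) = ψ s (F (g x))) {e : ℝ} (h0 : 0 < e)
    (hgap : ∀ (k : ℕ) (q : N) (D : ℝ), 1 ≤ k → (fun y => ψ s (F y))^[k] q = q →
      (fun y => ψ s (F y))^[k] (ψ D q) = ψ D q → |D| < e → D = 0) : PerExp T := by
  obtain ⟨E, hE1, hE2⟩ := C.exists_angle
  obtain ⟨η, hη, hE⟩ := hE2 e h0
  have hu1 := CompactSpace.uniformContinuous_of_continuous hg
  have hu2 := CompactSpace.uniformContinuous_of_continuous (C.contπ.comp hg)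
  rw [Metric.uniformContinuous_iff] at hu1 hu2
  obtain ⟨d1, hd1, hc1⟩ := hu1 η hη
  obtain ⟨d2, hd2, hc2⟩ := hu2 e₀ he
  refine ⟨min d1 d2 / 2, by positivity, fun p q k hk hp hq hpq => ?_⟩
  have hlt : ∀ i, dist (T^[i] p) (T^[i] q) < min d1 d2 := fun i =>
    lt_of_le_of_lt (hpq i) (half_lt_self (by positivity))
  have hiter : ∀ (j : ℕ) x, (fun y => ψ s (F y))^[j] (g x) = g (T^[j] x) := by
    intro j x
    induction j with
    | zero => rfl
    | succ j ih => rw [Function.iterate_succ_apply', Function.iterate_succ_apply', ih, h1]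
  have hstep : ∀ x, f (π (g x)) = π (g (T x)) := by
    intro x
    rw [h1, C.pi_psi, C.semi]
  -- the periodic extension
  have key : ∀ x, T^[k] x = x → (∀ n : ℤ, f (π (g (T^[(n % k).toNat] x))) =
      π (g (T^[((n + 1) % k).toNat] x))) ∧ ∀ n : ℤ, π (g (T^[(n % k).toNat] x)) ∈
        closure {x | ∃ k, 1 ≤ k ∧ f^[k] x = x} := by
    intro x hx
    constructor
    · intro n
      rw [hstep, ← Function.iterate_succ_apply' T]
      congr 2
      have hper : Function.IsPeriodicPt T k x := hx
      rw [← hper.iterate_mod_apply ((n % k).toNat + 1)]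
      congr 1
      have hk0 : (0 : ℤ) < k := by exact_mod_cast hk
      have hn0 : 0 ≤ n % k := Int.emod_nonneg _ hk0.ne'
      have : (((((n % k).toNat + 1) % k : ℕ)) : ℤ) = (n + 1) % k := by
        push_cast
        rw [Int.toNat_of_nonneg hn0, Int.emod_add_emod]
      have h2 : (((n % k).toNat + 1) % k : ℕ) = ((n + 1) % k).toNat := by
        rw [← this, Int.toNat_natCast]
      rw [h2]
    · intro n
      apply subset_closure
      refine ⟨k, hk, ?_⟩
      have h3 : ∀ (j : ℕ) y, f^[j] (π (g y)) = π (g (T^[j] y)) := by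
        intro j y
        induction j with
        | zero => rfl
        | succ j ih => rw [Function.iterate_succ_apply', Function.iterate_succ_apply', ih, hstep]
      rw [h3, ← Function.iterate_add_apply, add_comm, Function.iterate_add_apply, hx]
  obtain ⟨kp1, kp2⟩ := key p hp
  obtain ⟨kq1, kq2⟩ := key q hq
  have hzw := hX (fun n => π (g (T^[(n % k).toNat] p))) (fun n => π (g (T^[(n % k).toNat] q)))
    kp2 kq2 kp1 kq1 (fun n => (hc2 (lt_of_lt_of_le (hlt _) (min_le_right _ _))).le)
  have hπ : π (g p) = π (g q) := by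
    have := congrFun hzw 0
    simpa using this
  have hD := hE1 _ _ hπ
  have hDs := hE _ _ hπ (hc1 (lt_of_lt_of_le (hlt 0) (min_le_left _ _)))
  have hz := hgap k (g q) (E (g p) (g q)) hk (by rw [hiter, hq]) (by rw [hD, hiter, hp]) hDs
  rw [hz, C.act.zero] at hD
  exact (hinj hD).symm

end Pool.Agent.J4.H98.FH
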