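import Pool.Agent.J4.H85.IS.Bundle

/-!
# The angle between two sections (piece PAIR of project FH)
-/

set_option autoImplicit false
set_option linter.unusedSectionVars false

open Filter Set Topology

universe u v w

namespace Pool.Agent.J4.H98.FH

open Pool.Agent.J4.H85.IS Pool.Agent.J4.H85.LE

namespace PairC

variable {N : Type v} [TopologicalSpace N] {B : Type w} [TopologicalSpace B]
  {ψ : ℝ → N → N} {F : N → N} {ρ : N → ℝ} {π : N → B} {f : B → B}

/-- small angles are determined by the point -/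
lemma eq_of_act (C : Circ ψ F ρ π f) {y : N} {a b : ℝ} (h : ψ a y = ψ b y) (hab : |a - b| < 1) :
    a = b := by
  have h1 := (C.act.eq_iff).1 h
  rw [mem_stab, C.free] at h1
  obtain ⟨m, hm⟩ := h1
  rw [hm] at hab
  have h2 : |m| < 1 := by exact_mod_cast hab
  have h3 : m = 0 := Int.abs_lt_one_iff.1 h2
  rw [h3, Int.cast_zero] at hm
  linarith

lemma abs_theta (C : Circ ψ F ρ π f) {R : ℝ} (hR : ∀ y, ρ y ≤ R) (y : N) (t : ℝ) :
    |theta ψ ρ y t| ≤ R * |t| := by
  have h1 := intervalIntegral.norm_integral_le_of_norm_le_const (a := (0 : ℝ)) (b := t)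
      (f := fun u => ρ (ψ u y)) (C := R) fun u _ => by
        rw [Real.norm_eq_abs, abs_of_pos (C.pos _)]
        exact hR _
  rwa [Real.norm_eq_abs, sub_zero] at h1

lemma theta_nonneg (C : Circ ψ F ρ π f) (y : N) {t : ℝ} (ht : 0 ≤ t) : 0 ≤ theta ψ ρ y t :=
  intervalIntegral.integral_nonneg ht fun _ _ => (C.pos _).le

end PairC

open PairC in

theorem pair {X : Type u} [MetricSpace X] [CompactSpace X] (T : X ≃ₜ X)
    (hper : Dense {x | ∃ k, 1 ≤ k ∧ T^[k] x = x}) {N : Type v} [MetricSpace N] [CompactSpace N]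
    {B : Type w} [MetricSpace B] [CompactSpace B] {ψ : ℝ → N → N} {F : N → N} {ρ : N → ℝ}
    {π : N → B} {f : B → B} (C : Circ ψ F ρ π f) {R : ℝ} (hR1 : 1 ≤ R) (hR : ∀ y, ρ y ≤ R)
    {s s' : ℝ} (hss : s < s') (hsm : s' - s ≤ 1 / 8) {g g' : X → N} (hg : Continuous g)
    (hg' : Continuous g') (h1 : ∀ x, g (T x) = ψ s (F (g x))) (h2 : ∀ x, g' (T x) = ψ s' (F (g' x)))
    {E : X → ℝ} (hE : ∀ x, ψ (E x) (g x) = g' x) (hEs : ∀ x, |E x| ≤ 1 / (8 * R)) :
    Continuous E ∧ (∀ x, E (T x) = theta ψ ρ (g x) (E x) + (s' - s)) ∧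
      ∃ m : ℝ, 0 < m ∧ (∀ x, m ≤ |E x|) ∧ ∀ x, (0 < E x ↔ 0 < E (T x)) := by
  have hR0 : 0 < R := by linarith
  have hE8 : ∀ x, |E x| ≤ 1 / 8 := fun x => (hEs x).trans (by
    apply one_div_le_one_div_of_le <;> linarith)
  have hth : ∀ x, |theta ψ ρ (g x) (E x)| ≤ 1 / 8 := by
    intro x
    refine (abs_theta C hR _ _).trans ?_
    calc R * |E x| ≤ R * (1 / (8 * R)) := mul_le_mul_of_nonneg_left (hEs x) hR0.le
      _ = 1 / 8 := by field_simp
  have hrel : ∀ x, E (T x) = theta ψ ρ (g x) (E x) + (s' - s) := by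
    intro x
    apply eq_of_act C (y := g (T x))
    · rw [hE, h2, ← hE x, C.maps, h1, ← C.act.add, ← C.act.add]
      congr 1
      unfold theta
      ring
    · have a1 := abs_le.1 (hE8 (T x))
      have a2 := abs_le.1 (hth x)
      rw [abs_lt]
      constructor <;> linarith
  have hcont : Continuous E := by
    rw [continuous_iff_continuousAt]
    intro x
    refine tendsto_of_subseq_tendsto fun u hu => ?_
    obtain ⟨e, he, φ, hφ, hlim⟩ := (isCompact_Icc (a := -(1 / 8 : ℝ)) (b := 1 / 8)).tendsto_subseq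
      (x := fun n => E (u n)) fun n => abs_le.1 (hE8 (u n))
    refine ⟨φ, ?_⟩
    have hu' : Tendsto (fun n => u (φ n)) atTop (𝓝 x) := hu.comp hφ.tendsto_atTop
    have h3 : Tendsto (fun n => ψ (E (u (φ n))) (g (u (φ n)))) atTop (𝓝 (ψ e (g x))) :=
      (C.cont.tendsto (e, g x)).comp (hlim.prodMk_nhds ((hg.tendsto x).comp hu'))
    have h4 : Tendsto (fun n => ψ (E (u (φ n))) (g (u (φ n)))) atTop (𝓝 (g' x)) := by
      simp only [hE]
      exact (hg'.tendsto x).comp hu'
    have h5 : e = E x := by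
      apply eq_of_act C (y := g x)
      · rw [hE]
        exact tendsto_nhds_unique h3 h4
      · have a1 := abs_le.1 (hE8 x)
        have a2 : e ∈ Icc (-(1 / 8 : ℝ)) (1 / 8) := he
        rw [abs_lt]
        constructor <;> linarith [a2.1, a2.2]
    rw [← h5]
    exact hlim
  have hd : 0 < s' - s := by linarith
  have hpos : ∀ x, 0 ≤ E x → s' - s ≤ E (T x) := fun x hx => by
    rw [hrel]
    linarith [theta_nonneg C (g x) hx]
  have hpos' : ∀ (i : ℕ) (x : X), 0 ≤ E x → s' - s ≤ E (T^[i + 1] x) := by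
    intro i
    induction i with
    | zero => intro x hx; exact hpos x hx
    | succ i ih =>
      intro x hx
      rw [Function.iterate_succ_apply]
      exact ih (T x) (by linarith [hpos x hx])
  have hmR : (s' - s) / R ≤ s' - s := div_le_self hd.le hR1
  have hP : ∀ x, (∃ k, 1 ≤ k ∧ T^[k] x = x) → (s' - s) / R ≤ |E x| ∧ 0 ≤ E x * E (T x) := by
    rintro x ⟨k, hk1, hk⟩
    rcases le_or_gt 0 (E x) with h0 | h0
    · obtain ⟨j, rfl⟩ := Nat.exists_eq_add_of_le' hk1
      have h3 := hpos' j x h0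
      rw [hk] at h3
      have h4 := hpos x h0
      refine ⟨?_, mul_nonneg h0 (by linarith)⟩
      rw [abs_of_nonneg h0]
      linarith
    · have h5 : E (T x) < 0 := by
        by_contra h6
        push Not at h6
        rcases Nat.lt_or_ge k 2 with hk2 | hk2
        · have hk3 : k = 1 := by omega
          subst hk3
          have h7 : T x = x := hk
          rw [h7] at h6
          linarith
        · obtain ⟨j, rfl⟩ := Nat.exists_eq_add_of_le' hk2
          have h7 := hpos' j (T x) h6
          have h8 : T^[j + 1] (T x) = x := hk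
          rw [h8] at h7
          linarith
      refine ⟨?_, (mul_pos_of_neg_of_neg h0 h5).le⟩
      rw [hrel] at h5
      have h6 : s' - s < |theta ψ ρ (g x) (E x)| :=
        lt_of_lt_of_le (by linarith) (neg_le_abs _)
      have h7 := abs_theta C hR (g x) (E x)
      rw [div_le_iff₀ hR0]
      linarith [mul_comm R |E x|]
  have hm : ∀ x, (s' - s) / R ≤ |E x| := by
    have hcl : IsClosed {x | (s' - s) / R ≤ |E x|} := isClosed_le continuous_const hcont.abs
    intro x
    exact closure_minimal (fun y hy => (hP y hy).1) hcl (hper x)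
  have hs : ∀ x, 0 ≤ E x * E (T x) := by
    have hcl : IsClosed {x | 0 ≤ E x * E (T x)} :=
      isClosed_le continuous_const (hcont.mul (hcont.comp T.continuous))
    intro x
    exact closure_minimal (fun y hy => (hP y hy).2) hcl (hper x)
  refine ⟨hcont, hrel, (s' - s) / R, div_pos hd hR0, hm, fun x => ⟨fun hx => ?_, fun hx => ?_⟩⟩
  · linarith [hpos x hx.le]
  · by_contra hn
    have h3 : E x < 0 := by
      refine lt_of_le_of_ne (not_lt.1 hn) fun h0 => ?_
      have h4 := hm x
      rw [h0, abs_zero] at h4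
      linarith [div_pos hd hR0]
    linarith [hs x, mul_neg_of_neg_of_pos h3 hx]

end Pool.Agent.J4.H98.FH
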