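import Mathlib

/-!
# Project FH, piece TWO (helper43): points which are limits from both sides, with their values
-/

set_option autoImplicit false

open Filter Set Topology

universe u

namespace Pool.Agent.J4.H98.FH

private theorem TWO_sep {Y : Type u} [MetricSpace Y] [SecondCountableTopology Y] (Φ : ℝ → Y)
    {L : Set ℝ} {ε : ℝ} (hε : 0 < ε)
    (h : ∀ s ∈ L, ∀ s' ∈ L, s < s' → s' < s + ε → ε ≤ dist (Φ s) (Φ s')) : L.Countable := by
  obtain ⟨D, hD1, hD2⟩ := TopologicalSpace.exists_countable_dense Y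
  have h1 : L ⊆ ⋃ d ∈ D, (L ∩ {s | dist (Φ s) d < ε / 2}) := by
    intro s hs
    obtain ⟨d, hd, hd2⟩ := Metric.dense_iff.1 hD2 (Φ s) (ε / 2) (by positivity)
    rw [Set.mem_iUnion₂]
    refine ⟨d, hd2, hs, ?_⟩
    rw [Metric.mem_ball, dist_comm] at hd
    exact hd
  refine Set.Countable.mono h1 (hD1.biUnion fun d _ => ?_)
  refine Set.PairwiseDisjoint.countable_of_Ioo (y := fun s => s + ε) ?_ ?_
  · have key : ∀ s ∈ L ∩ {s | dist (Φ s) d < ε / 2}, ∀ s' ∈ L ∩ {s | dist (Φ s) d < ε / 2},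
        s < s' → Disjoint (Ioo s (s + ε)) (Ioo s' (s' + ε)) := by
      rintro s ⟨hs, hsd⟩ s' ⟨hs', hsd'⟩ hlt
      rw [Set.disjoint_left]
      rintro x ⟨_, h3⟩ ⟨h4, _⟩
      have h5 := h s hs s' hs' hlt (h4.trans h3)
      have h6 : dist (Φ s) d < ε / 2 := hsd
      have h7 : dist (Φ s') d < ε / 2 := hsd'
      have h8 := dist_triangle_right (Φ s) (Φ s') d
      linarith
    intro s hs s' hs' hne
    rcases lt_or_gt_of_ne hne with h2 | h2
    · exact key s hs s' hs' h2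
    · exact (key s' hs' s hs h2).symm
  · intro s _
    show s < s + ε
    linarith

/-- TWO -/
theorem two_sided {Y : Type u} [MetricSpace Y] [SecondCountableTopology Y] (Φ : ℝ → Y) {S : Set ℝ}
    (hS : ¬ S.Countable) : ∃ s ∈ S, ∀ r : ℝ, 0 < r →
      (∃ a ∈ S, s - r < a ∧ a < s ∧ dist (Φ a) (Φ s) < r) ∧
      (∃ b ∈ S, s < b ∧ b < s + r ∧ dist (Φ b) (Φ s) < r) := by
  by_contra hcon
  push Not at hcon
  apply hS
  set L : ℕ → Set ℝ := fun n => {s ∈ S | ∀ a ∈ S, s - 1 / ((n : ℝ) + 1) < a → a < s →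
    1 / ((n : ℝ) + 1) ≤ dist (Φ a) (Φ s)} with hL
  set R : ℕ → Set ℝ := fun n => {s ∈ S | ∀ b ∈ S, s < b → b < s + 1 / ((n : ℝ) + 1) →
    1 / ((n : ℝ) + 1) ≤ dist (Φ b) (Φ s)} with hR
  have hL1 : ∀ n, (L n).Countable := by
    intro n
    have hn : (0 : ℝ) < 1 / ((n : ℝ) + 1) := by positivity
    refine TWO_sep Φ hn ?_
    intro s hs s' hs' h1 h2
    exact hs'.2 s hs.1 (by linarith) h1
  have hR1 : ∀ n, (R n).Countable := by
    intro n
    have hn : (0 : ℝ) < 1 / ((n : ℝ) + 1) := by positivity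
    refine TWO_sep Φ hn ?_
    intro s hs s' hs' h1 h2
    rw [dist_comm]
    exact hs.2 s' hs'.1 h1 h2
  have hsub : S ⊆ (⋃ n, L n) ∪ ⋃ n, R n := by
    intro s hs
    obtain ⟨r, hr, h1⟩ := hcon s hs
    obtain ⟨n, hn⟩ := exists_nat_one_div_lt hr
    by_cases h2 : ∃ a ∈ S, s - r < a ∧ a < s ∧ dist (Φ a) (Φ s) < r
    · right
      rw [Set.mem_iUnion]
      refine ⟨n, hs, ?_⟩
      intro b hb hb1 hb2
      have h3 := h1 h2 b hb hb1 (by linarith)
      linarith
    · left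
      rw [Set.mem_iUnion]
      refine ⟨n, hs, ?_⟩
      intro a ha ha1 ha2
      by_contra h3
      push Not at h3
      exact h2 ⟨a, ha, by linarith, ha2, by linarith⟩
  exact Set.Countable.mono hsub
    ((Set.countable_iUnion hL1).union (Set.countable_iUnion hR1))

end Pool.Agent.J4.H98.FH
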