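import Pool.Agent.J4.H98.FH.BASE
import Pool.Agent.J4.H98.FH.EXP
import Pool.Agent.J4.H98.FH.FULL
import Pool.Agent.J4.H98.FH.GAP
import Pool.Agent.J4.H98.FH.ONE
import Pool.Agent.J4.H98.FH.PEX
import Pool.Agent.J4.H98.FH.PairC
import Pool.Agent.J4.H98.FH.TWO

/-!
# Tracing periodic pseudo-orbits of the nonwandering set
-/

set_option autoImplicit false
set_option linter.unusedSectionVars false

open Filter Set Topology

universe u v w

namespace Pool.Agent.J4.H98.FH

open Pool.Agent.J4.H85.IS Pool.Agent.J4.H85.LE Pool.Agent.J4.H98.SP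

variable {X : Type u} [MetricSpace X] [CompactSpace X] {N : Type v} [MetricSpace N] [CompactSpace N]
  {B : Type w} [MetricSpace B] [CompactSpace B] {ψ : ℝ → N → N} {F : N → N} {ρ : N → ℝ}
  {π : N → B} {f : B → B}

/-- constant sign along a periodic pseudo-orbit -/
theorem same_sign {b : ℕ → ℝ} (h : ∀ i, 0 < b i ↔ 0 < b (i + 1)) : (∀ i, 0 < b i) ∨ ∀ i, ¬ 0 < b i := by
  by_cases h0 : 0 < b 0
  · left
    intro i
    induction i with
    | zero => exact h0
    | succ i ih => exact (h i).1 ih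
  · right
    intro i
    induction i with
    | zero => exact h0
    | succ i ih => exact fun h' => ih ((h i).2 h')

theorem trace (T : X ≃ₜ X) (hper : Dense {x | ∃ k, 1 ≤ k ∧ T^[k] x = x}) (C : Circ ψ F ρ π f)
    (hS : PeriodicShadowing f) {R : ℝ} (hR1 : 1 ≤ R) (hR : ∀ y, ρ y ≤ R) {a s b : ℝ} (has : a < s)
    (hsb : s < b) (hab : b - a ≤ 1 / 8) {g g' : X → N} (hg : Continuous g) (hg' : Continuous g')
    (h1 : ∀ x, g (T x) = ψ a (F (g x))) (h2 : ∀ x, g' (T x) = ψ b (F (g' x))) {E : X → ℝ}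
    (hE : ∀ x, ψ (E x) (g x) = g' x) {κ : ℝ} (hκ : κ ≤ 1 / (8 * R)) (hEs : ∀ x, |E x| ≤ κ) {ε : ℝ}
    (hε : 0 < ε) : ∃ η : ℝ, 0 < η ∧ ∀ (x : ℕ → X) (M : ℕ), 1 ≤ M → (∀ i, x (i + M) = x i) →
      (∀ i, dist (T (x i)) (x (i + 1)) < η) → ∃ (α : ℕ → ℝ) (z : ℕ → N),
        (∀ i, (fun y => ψ s (F y))^[i] (ψ (α 0) (z 0)) = ψ (α i) (z i)) ∧ α M = α 0 ∧ z M = z 0 ∧
        (∀ i, |α i| ≤ κ) ∧ ∀ i, dist (z i) (g (x i)) < ε := by
  obtain ⟨hEc, hEd, m, hm, hEm, hsign⟩ := pair T hper C hR1 hR (has.trans hsb) hab hg hg' h1 h2 hE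
    fun x => (hEs x).trans hκ
  obtain ⟨γ, hγ, hγ1, hγ2⟩ : ∃ γ : ℝ, 0 < γ ∧ γ ≤ s - a ∧ γ ≤ b - s :=
    ⟨min (s - a) (b - s), lt_min (by linarith) (by linarith), min_le_left _ _, min_le_right _ _⟩
  obtain ⟨η1, hη1, hcl⟩ := C.close (ε := γ / 4) (by linarith)
  obtain ⟨η2, hη2, hsh⟩ := shadow_tr (C.fam a) hS (ε := min ε (min η1 (γ / 4))) (by positivity)
  have hgu := CompactSpace.uniformContinuous_of_continuous hg
  rw [Metric.uniformContinuous_iff] at hgu
  obtain ⟨η3, hη3, hgu⟩ := hgu η2 hη2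
  have hEu := CompactSpace.uniformContinuous_of_continuous hEc
  rw [Metric.uniformContinuous_iff] at hEu
  obtain ⟨η4, hη4, hEu⟩ := hEu (min (γ / 4) m) (by positivity)
  refine ⟨min η3 η4, by positivity, fun x M hM hxM hx => ?_⟩
  obtain ⟨z, e, Tz, hz⟩ := hsh (fun i => g (x i)) M hM (fun i => by
    show g (x (i + M)) = g (x i)
    rw [hxM]) (fun i => by
    show dist (ψ a (F (g (x i)))) (g (x (i + 1))) < η2
    rw [← h1]
    exact hgu ((hx i).trans_le (min_le_left _ _)))
  have hz1 : ∀ i, dist (z i) (g (x i)) < ε := fun i => (hz i).trans_le (min_le_left _ _)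
  have hz2 : ∀ i, dist (z i) (g (x i)) < η1 := fun i =>
    (hz i).trans_le ((min_le_right _ _).trans (min_le_left _ _))
  have he : ∀ i, |e i| ≤ γ / 4 := fun i =>
    (Tz.small i).trans ((min_le_right _ _).trans (min_le_right _ _))
  have hFz : ∀ i, F (z i) = ψ (e i - a) (z (i + 1)) := by
    intro i
    have h3 : ψ a (F (z i)) = ψ (e i) (z (i + 1)) := Tz.step i
    have h4 : ψ (-a) (ψ a (F (z i))) = ψ (-a) (ψ (e i) (z (i + 1))) := by rw [h3]
    rw [← C.act.add, neg_add_cancel, C.act.zero, ← C.act.add] at h4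
    rw [h4]
    congr 1
    ring
  have hEE : ∀ i, |E (T (x i)) - E (x (i + 1))| < min (γ / 4) m := by
    intro i
    have := hEu ((hx i).trans_le (min_le_right _ _))
    rwa [Real.dist_eq] at this
  obtain ⟨α, hα1, hα2, hα3⟩ := one_dim
    (φ := fun i t => theta ψ ρ (z i) t + (e i + (s - a))) (M := M) (b := fun i => E (x i))
    (fun i => by
      apply StrictMono.add_const
      exact strictMono_of_deriv_pos fun t => by rw [C.theta_deriv]; exact C.pos _)
    (fun i => (C.theta_smooth _).continuous.add continuous_const) hM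
    (fun i => by
      funext t
      show theta ψ ρ (z (i + M)) t + (e (i + M) + (s - a)) = _
      rw [Tz.perx, Tz.pere])
    (fun i => by
      show E (x (i + M)) = E (x i)
      rw [hxM])
    (fun i => by
      show 0 < theta ψ ρ (z i) 0 + (e i + (s - a))
      rw [Circ.theta_zero]
      have := (abs_le.1 (he i)).1
      linarith)
    (fun i => by
      show theta ψ ρ (z i) (E (x i)) + (e i + (s - a)) < E (x (i + 1))
      have h3 := (hcl (z i) (g (x i)) (hz2 i) (E (x i))).2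
      have h4 := hEd (x i)
      have h5 := (abs_le.1 (he i)).2
      have h6 := (hEE i).trans_le (min_le_left _ _)
      rw [abs_lt] at h6
      have h7 := (abs_le.1 h3).2
      linarith [h6.2])
    (by
      have h3 : ∀ i, 0 < E (x i) ↔ 0 < E (x (i + 1)) := by
        intro i
        rw [hsign (x i)]
        have h6 := (hEE i).trans_le (min_le_right _ _)
        rw [abs_lt] at h6
        constructor
        · intro h
          have := hEm (T (x i))
          rw [abs_of_pos h] at this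
          linarith [h6.2]
        · intro h
          have := hEm (x (i + 1))
          rw [abs_of_pos h] at this
          linarith [h6.1]
      rcases same_sign (b := fun i => E (x i)) h3 with h | h
      · exact Or.inl h
      · right
        intro i
        have h4 := h i
        simp only [not_lt] at h4
        rcases h4.lt_or_eq with h5 | h5
        · exact h5
        · exfalso
          have := hEm (x i)
          rw [h5, abs_zero] at this
          linarith)
  refine ⟨α, z, fun i => ?_, ?_, ?_, fun i => (hα3 i).trans (hEs _), hz1⟩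
  · induction i with
    | zero => rfl
    | succ i ih =>
      rw [Function.iterate_succ_apply', ih, hα1 i]
      show ψ s (F (ψ (α i) (z i))) = _
      rw [C.maps, hFz, ← C.act.add, ← C.act.add]
      congr 1
      show s + theta ψ ρ (z i) (α i) + (e i - a) = theta ψ ρ (z i) (α i) + (e i + (s - a))
      ring
  · have := hα2 0
    rwa [zero_add] at this
  · have := Tz.perx 0
    rwa [zero_add] at this

/-- inverse modulus of continuity -/
theorem inj_mod {g : X → N} (hg : Continuous g) (hinj : Function.Injective g) {τ : ℝ} (hτ : 0 < τ) :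
    ∃ δ : ℝ, 0 < δ ∧ ∀ u v, dist (g u) (g v) < δ → dist u v < τ := by
  have hK : IsCompact {q : X × X | τ ≤ dist q.1 q.2} :=
    (isClosed_le continuous_const (continuous_fst.dist continuous_snd)).isCompact
  rcases ({q : X × X | τ ≤ dist q.1 q.2}).eq_empty_or_nonempty with h | h
  · refine ⟨1, one_pos, fun u v _ => ?_⟩
    by_contra hc
    have : (u, v) ∈ {q : X × X | τ ≤ dist q.1 q.2} := not_lt.1 hc
    rw [h] at this
    exact this
  · obtain ⟨⟨u0, v0⟩, h0, hmin⟩ := hK.exists_isMinOn h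
      ((hg.comp continuous_fst).dist (hg.comp continuous_snd)).continuousOn
    have hpos : 0 < dist (g u0) (g v0) := by
      rw [dist_pos]
      intro h1
      have h2 := hinj h1
      have h3 : τ ≤ dist u0 v0 := h0
      rw [h2, dist_self] at h3
      linarith
    refine ⟨_, hpos, fun u v huv => ?_⟩
    by_contra hc
    have h1 : (u, v) ∈ {q : X × X | τ ≤ dist q.1 q.2} := not_lt.1 hc
    have h2 : dist (g u0) (g v0) ≤ dist (g u) (g v) := hmin h1
    linarith

theorem iter_semi {T : X ≃ₜ X} {G : N → N} {g : X → N} (h : ∀ x, g (T x) = G (g x)) (i : ℕ) (x : X) :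
    g (T^[i] x) = G^[i] (g x) := by
  induction i with
  | zero => rfl
  | succ i ih => rw [Function.iterate_succ_apply', Function.iterate_succ_apply', h, ih]

theorem per_shadow (T : X ≃ₜ X) (hper : Dense {x | ∃ k, 1 ≤ k ∧ T^[k] x = x}) (C : Circ ψ F ρ π f)
    {e₀ : ℝ} (he : 0 < e₀) (hX : ExpansiveWith f e₀) (hS : PeriodicShadowing f) {ε : ℝ} (hε : 0 < ε)
    (g : ℝ → X → N) (hg : ∀ s, |s| < ε → Continuous (g s))
    (hinj : ∀ s, |s| < ε → Function.Injective (g s))
    (hsemi : ∀ s, |s| < ε → ∀ x, g s (T x) = ψ s (F (g s x)))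
    (hsurj : ∀ s, |s| < ε → ∀ (k : ℕ) (q : N), 1 ≤ k → (fun y => ψ s (F y))^[k] q = q →
      ∃ x, g s x = q) : PerShadow T := by
  obtain ⟨S, hSc, hSε, hSb⟩ := same_base T hper he hX (fun s x => π (g s x)) hε
    (fun s hs => C.contπ.comp (hg s hs)) (fun s hs x => by
      show π (g s (T x)) = f (π (g s x))
      rw [hsemi s hs, C.pi_psi, C.semi])
  have h0ε : |(0 : ℝ)| < ε := by rw [abs_zero]; exact hε
  obtain ⟨s, hs, hcond⟩ := two_sided
    (fun s => if h : |s| < ε then (⟨g s, hg s h⟩ : C(X, N)) else ⟨g 0, hg 0 h0ε⟩) hSc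
  have hsε := hSε s hs
  intro τ hτ
  obtain ⟨δ1, hδ1, hmod⟩ := inj_mod (hg s hsε) (hinj s hsε) hτ
  obtain ⟨R, hR1, hR⟩ : ∃ R : ℝ, 1 ≤ R ∧ ∀ y, ρ y ≤ R := by
    obtain ⟨R, hR⟩ := (isCompact_univ.image C.contρ).bddAbove
    exact ⟨max 1 R, le_max_left _ _, fun y => (hR ⟨y, mem_univ _, rfl⟩).trans (le_max_right _ _)⟩
  obtain ⟨κ1, hκ1, hflow⟩ := Walk.small C.cont C.act.zero (ε := δ1 / 4) (by linarith)
  obtain ⟨A, hA1, hA2⟩ := C.exists_angle
  obtain ⟨η0, hη0, hA3⟩ := hA2 (min κ1 (1 / (8 * R))) (by positivity)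
  obtain ⟨⟨a, ha, ha1, ha2, ha3⟩, ⟨b, hb, hb1, hb2, hb3⟩⟩ :=
    hcond (min (1 / 16) (min (δ1 / 4) (η0 / 2))) (by positivity)
  have haε := hSε a ha
  have hbε := hSε b hb
  simp only [dif_pos haε, dif_pos hsε] at ha3
  simp only [dif_pos hbε, dif_pos hsε] at hb3
  have ha4 : ∀ x, dist (g a x) (g s x) < min (1 / 16) (min (δ1 / 4) (η0 / 2)) := fun x =>
    (ContinuousMap.dist_apply_le_dist (f := (⟨g a, hg a haε⟩ : C(X, N)))
      (g := ⟨g s, hg s hsε⟩) x).trans_lt ha3
  have hb4 : ∀ x, dist (g b x) (g s x) < min (1 / 16) (min (δ1 / 4) (η0 / 2)) := fun x =>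
    (ContinuousMap.dist_apply_le_dist (f := (⟨g b, hg b hbε⟩ : C(X, N)))
      (g := ⟨g s, hg s hsε⟩) x).trans_lt hb3
  have hr1 : min (1 / 16 : ℝ) (min (δ1 / 4) (η0 / 2)) ≤ 1 / 16 := min_le_left _ _
  have hr2 : min (1 / 16 : ℝ) (min (δ1 / 4) (η0 / 2)) ≤ δ1 / 4 :=
    (min_le_right _ _).trans (min_le_left _ _)
  have hr3 : min (1 / 16 : ℝ) (min (δ1 / 4) (η0 / 2)) ≤ η0 / 2 :=
    (min_le_right _ _).trans (min_le_right _ _)
  have hbase : ∀ x, π (g b x) = π (g a x) := fun x => congrFun (hSb b hb a ha) x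
  have hEs : ∀ x, |A (g b x) (g a x)| ≤ min κ1 (1 / (8 * R)) := by
    intro x
    refine (hA3 _ _ (hbase x) ?_).le
    have h3 := dist_triangle (g b x) (g s x) (g a x)
    rw [dist_comm (g s x) (g a x)] at h3
    linarith [ha4 x, hb4 x]
  obtain ⟨η, hη, htr⟩ := trace T hper C hS hR1 hR (a := a) (s := s) (b := b) ha2 hb1
    (by linarith) (hg a haε) (hg b hbε) (hsemi a haε) (hsemi b hbε)
    (E := fun x => A (g b x) (g a x)) (fun x => hA1 _ _ (hbase x))
    (κ := min κ1 (1 / (8 * R))) (min_le_right _ _) hEs (ε := δ1 / 4) (by linarith)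
  refine ⟨η, hη, fun x M hM hxM hx => ?_⟩
  obtain ⟨α, z, k1, k2, k3, k4, k5⟩ := htr x M hM hxM hx
  have hqM : (fun y => ψ s (F y))^[M] (ψ (α 0) (z 0)) = ψ (α 0) (z 0) := by
    rw [k1, k2, k3]
  obtain ⟨p, hp⟩ := hsurj s hsε M _ hM hqM
  have hit : ∀ i, g s (T^[i] p) = ψ (α i) (z i) := by
    intro i
    rw [iter_semi (G := fun y => ψ s (F y)) (hsemi s hsε), hp, k1]
  refine ⟨p, hinj s hsε ?_, fun i => hmod _ _ ?_⟩
  · rw [hit, k2, k3, hp]
  · rw [hit]
    have h3 := hflow (α i) ((k4 i).trans (min_le_left _ _)) (z i)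
    have h4 := k5 i
    have h5 := ha4 (x i)
    have h6 := dist_triangle (ψ (α i) (z i)) (z i) (g s (x i))
    have h7 := dist_triangle (z i) (g a (x i)) (g s (x i))
    rw [dist_comm (ψ (α i) (z i)) (z i)] at h6
    linarith

end Pool.Agent.J4.H98.FH
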