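import Mathlib

set_option autoImplicit false
set_option linter.unusedSectionVars false

open Filter Set Topology

universe u v w

namespace Pool.Agent.J4.H98.FH

namespace TwoB

/-- a set of reals any two points of which are at distance at least `c > 0` is countable -/
lemma countable_sep {A : Set ℝ} {c : ℝ} (hc : 0 < c)
    (h : ∀ s ∈ A, ∀ t ∈ A, s < t → c ≤ t - s) : A.Countable := by
  have hinj : InjOn (fun s : ℝ => ⌊s / c⌋) A := by
    intro s hs t ht hst
    by_contra hne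
    have hst : ⌊s / c⌋ = ⌊t / c⌋ := hst
    have key : ∀ s ∈ A, ∀ t ∈ A, ⌊s / c⌋ = ⌊t / c⌋ → ¬ s < t := by
      intro s hs t ht hst hlt
      have h1 := h s hs t ht hlt
      have h2 : s / c + 1 ≤ t / c := by
        rw [div_add_one hc.ne', div_le_div_iff_of_pos_right hc]
        linarith
      have h3 : ⌊s / c⌋ + 1 ≤ ⌊t / c⌋ := by
        rw [← Int.floor_add_one]
        exact Int.floor_le_floor h2
      omega
    rcases lt_or_gt_of_ne hne with h4 | h4
    · exact key s hs t ht hst h4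
    · exact key t ht s hs hst.symm h4
  exact Set.MapsTo.countable_of_injOn (t := univ) (mapsTo_univ _ _) hinj (Set.to_countable _)

/-- the points isolated on the left at scale `r` -/
lemma left_countable {Y : Type u} [MetricSpace Y] [SecondCountableTopology Y] (Φ : ℝ → Y) (S : Set ℝ)
    {r : ℝ} (hr : 0 < r) :
    {s | s ∈ S ∧ ∀ a ∈ S, s - r < a → a < s → r ≤ dist (Φ a) (Φ s)}.Countable := by
  rcases isEmpty_or_nonempty Y with hY | hY
  · exact (hY.false (Φ 0)).elim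
  set A := {s | s ∈ S ∧ ∀ a ∈ S, s - r < a → a < s → r ≤ dist (Φ a) (Φ s)} with hA
  have hcov : A ⊆ ⋃ n : ℕ, {s | s ∈ A ∧ dist (Φ s) (TopologicalSpace.denseSeq Y n) < r / 2} := by
    intro s hs
    obtain ⟨n, hn⟩ := (TopologicalSpace.denseRange_denseSeq Y).exists_dist_lt (Φ s) (half_pos hr)
    exact mem_iUnion.2 ⟨n, hs, hn⟩
  refine (Set.countable_iUnion fun n => ?_).mono hcov
  refine countable_sep hr ?_
  rintro s ⟨hs, hs2⟩ t ⟨ht, ht2⟩ hst
  by_contra hlt
  push Not at hlt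
  have h1 := ht.2 s hs.1 (by linarith) hst
  have h2 := dist_triangle_right (Φ s) (Φ t) (TopologicalSpace.denseSeq Y n)
  linarith

lemma right_countable {Y : Type u} [MetricSpace Y] [SecondCountableTopology Y] (Φ : ℝ → Y) (S : Set ℝ)
    {r : ℝ} (hr : 0 < r) :
    {s | s ∈ S ∧ ∀ a ∈ S, s < a → a < s + r → r ≤ dist (Φ a) (Φ s)}.Countable := by
  rcases isEmpty_or_nonempty Y with hY | hY
  · exact (hY.false (Φ 0)).elim
  set A := {s | s ∈ S ∧ ∀ a ∈ S, s < a → a < s + r → r ≤ dist (Φ a) (Φ s)} with hA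
  have hcov : A ⊆ ⋃ n : ℕ, {s | s ∈ A ∧ dist (Φ s) (TopologicalSpace.denseSeq Y n) < r / 2} := by
    intro s hs
    obtain ⟨n, hn⟩ := (TopologicalSpace.denseRange_denseSeq Y).exists_dist_lt (Φ s) (half_pos hr)
    exact mem_iUnion.2 ⟨n, hs, hn⟩
  refine (Set.countable_iUnion fun n => ?_).mono hcov
  refine countable_sep hr ?_
  rintro s ⟨hs, hs2⟩ t ⟨ht, ht2⟩ hst
  by_contra hlt
  push Not at hlt
  have h1 := hs.2 t ht.1 hst (by linarith)
  have h2 := dist_triangle_right (Φ t) (Φ s) (TopologicalSpace.denseSeq Y n)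
  linarith

end TwoB

theorem two_sided {Y : Type u} [MetricSpace Y] [SecondCountableTopology Y] (Φ : ℝ → Y) {S : Set ℝ}
    (hS : ¬ S.Countable) : ∃ s ∈ S, ∀ r : ℝ, 0 < r →
      (∃ a ∈ S, s - r < a ∧ a < s ∧ dist (Φ a) (Φ s) < r) ∧
      (∃ b ∈ S, s < b ∧ b < s + r ∧ dist (Φ b) (Φ s) < r) := by
  by_contra hcon
  push Not at hcon
  refine hS ?_
  have hcov : S ⊆ ⋃ n : ℕ, ({s | s ∈ S ∧ ∀ a ∈ S, s - 1 / ((n : ℝ) + 1) < a → a < s →
      1 / ((n : ℝ) + 1) ≤ dist (Φ a) (Φ s)} ∪ {s | s ∈ S ∧ ∀ a ∈ S, s < a → a < s + 1 / ((n : ℝ) + 1) →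
      1 / ((n : ℝ) + 1) ≤ dist (Φ a) (Φ s)}) := by
    intro s hs
    obtain ⟨r, hr, h⟩ := hcon s hs
    obtain ⟨n, hn⟩ := exists_nat_one_div_lt hr
    refine mem_iUnion.2 ⟨n, ?_⟩
    by_cases h2 : ∃ a ∈ S, s - r < a ∧ a < s ∧ dist (Φ a) (Φ s) < r
    · right
      refine ⟨hs, fun a ha h3 h4 => ?_⟩
      have := h h2 a ha h3 (by linarith)
      linarith
    · left
      push Not at h2
      refine ⟨hs, fun a ha h3 h4 => ?_⟩
      have := h2 a ha (by linarith) h4
      linarith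
  refine (Set.countable_iUnion fun n => ?_).mono hcov
  exact (TwoB.left_countable Φ S (by positivity)).union (TwoB.right_countable Φ S (by positivity))

end Pool.Agent.J4.H98.FH
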